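import Pool.Agent.Work.MP_0ed2d6_al.Rep3

set_option autoImplicit false

open Matrix Module LaurentPolynomial

namespace Pool.Agent.Work.MP_0ed2d6_al

variable {H : Type*} [Group H] {K : Type*} [Field K] [CharZero K] (D : Rel H) (R : TRep H K)

open Polynomial in
theorem zeta_poly (htf : ∀ h, R.Triv (h * h) → R.Triv h)
    (hα : R.α (D.z 1) = 1) (hβ : R.β (D.z 1) = 1) (hnt : ¬ R.Triv (D.z 1)) :
    ∃ al : K, ∀ g : ℤ[X], R.q (D.z (2 * toLaurent g)) = 2 * aeval al g * R.q (D.z 1) := by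
  obtain ⟨hz1, hadd, hmul⟩ := zeta_mul D R htf hα hβ hnt
  let ζ : LaurentPolynomial ℤ → K := fun c => R.q (D.z c)
  replace hz1 : ζ 1 ≠ 0 := hz1
  replace hadd : ∀ c c', InA c → InA c' → ζ (c + c') = ζ c + ζ c' := hadd
  replace hmul : ∀ c c', InA c → InA c' → ζ c * ζ c' = ζ (c * c') * ζ 1 := hmul
  have h2 : ζ (2 * T 0) = 2 * ζ 1 := by
    have : (2 * T 0 : LaurentPolynomial ℤ) = 1 + 1 := by rw [T_zero]; norm_num
    rw [this, hadd 1 1 InA_one InA_one]; ring
  refine ⟨ζ (2 * T 1) / (2 * ζ 1), ?_⟩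
  set al := ζ (2 * T 1) / (2 * ζ 1) with hal
  have hal2 : ζ (2 * T 1) = 2 * al * ζ 1 := by
    rw [hal]; field_simp
  have hT : ∀ k : ℕ, ζ (2 * T (k : ℤ)) = 2 * al ^ k * ζ 1 := by
    intro k
    induction k with
    | zero => simpa using h2
    | succ k ih =>
      have e : (2 * T 1 : LaurentPolynomial ℤ) * (2 * T (k : ℤ)) =
          2 * T ((k + 1 : ℕ) : ℤ) + 2 * T ((k + 1 : ℕ) : ℤ) := by
        have : (T ((k + 1 : ℕ) : ℤ) : LaurentPolynomial ℤ) = T 1 * T (k : ℤ) := by
          rw [← T_add]; congr 1; push_cast; ring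
        rw [this]; ring
      have h := hmul (2 * T 1) (2 * T (k : ℤ)) (InA_two_mul _) (InA_two_mul _)
      rw [e] at h
      have h' : ζ (2 * T ((k + 1 : ℕ) : ℤ) + 2 * T ((k + 1 : ℕ) : ℤ)) =
          ζ (2 * T ((k + 1 : ℕ) : ℤ)) + ζ (2 * T ((k + 1 : ℕ) : ℤ)) :=
        hadd _ _ (InA_two_mul _) (InA_two_mul _)
      have h'' : ζ (2 * T 1) * ζ (2 * T (k : ℤ)) =
          (ζ (2 * T ((k + 1 : ℕ) : ℤ)) + ζ (2 * T ((k + 1 : ℕ) : ℤ))) * ζ 1 := by
        rw [← h']; exact h
      rw [ih, hal2] at h''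
      have hne : (2 : K) * ζ 1 ≠ 0 := mul_ne_zero two_ne_zero hz1
      apply mul_right_cancel₀ hne
      linear_combination -h''
  let F : ℤ[X] →+ K :=
    { toFun := fun g => ζ (2 * toLaurent g)
      map_zero' := by
        have := hadd 0 0 InA_zero InA_zero
        simp only [add_zero] at this
        have h0 : ζ 0 = 0 := by
          have h' : ζ 0 = ζ 0 + ζ 0 := this
          linear_combination -h'
        simpa using h0
      map_add' := by
        intro a b
        have : (2 * toLaurent (a + b) : LaurentPolynomial ℤ) = 2 * toLaurent a + 2 * toLaurent b := by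
          rw [map_add]; ring
        rw [this]
        exact hadd _ _ (InA_two_mul _) (InA_two_mul _) }
  let G : ℤ[X] →+ K :=
    { toFun := fun g => 2 * aeval al g * ζ 1
      map_zero' := by simp
      map_add' := by intro a b; rw [map_add]; ring }
  have hFG : F = G := by
    apply Polynomial.addHom_ext
    intro n a
    have e : (monomial n a : ℤ[X]) = a • (X ^ n : ℤ[X]) := by
      rw [← C_mul_X_pow_eq_monomial, zsmul_eq_mul]; simp
    rw [e, map_zsmul, map_zsmul]
    congr 1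
    show ζ (2 * toLaurent (X ^ n)) = 2 * aeval al (X ^ n) * ζ 1
    rw [toLaurent_X_pow, hT n]; simp
  intro g
  exact congrArg (fun f : ℤ[X] →+ K => f g) hFG

theorem mem_cI_of_pow (N : ℕ) : u ^ (2 * N) - 1 ∈ cI := by
  have h1 : (u * u) - 1 ∣ (u * u) ^ N - 1 ^ N := sub_dvd_pow_sub_pow _ _ _
  obtain ⟨w, hw⟩ := h1
  have : u ^ (2 * N) - 1 = kap * w := by
    rw [pow_mul, pow_two, kap, ← hw, one_pow]
  rw [this]
  exact cI.mul_mem_right _ kap_mem

open Polynomial in
/-- The key statement: the element `z 1` acts trivially. -/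
theorem rep_final [Algebra ℚ K] [Algebra.IsAlgebraic ℚ K] (htf : ∀ h, R.Triv (h * h) → R.Triv h)
    (hα : R.α (D.z 1) = 1) (hβ : R.β (D.z 1) = 1) : R.Triv (D.z 1) := by
  by_contra hnt
  obtain ⟨hz1, hadd, hmul⟩ := zeta_mul D R htf hα hβ hnt
  obtain ⟨hcen, hx, hy, hsw⟩ := zeta_facts D R htf hα hβ hnt
  have hg := beta_g D R htf hα hβ hnt
  obtain ⟨al, hal⟩ := zeta_poly D R htf hα hβ hnt
  obtain ⟨m, hm2, hm0⟩ := exists_poly al
  -- the modulus
  set h : ℤ[X] := (X ^ 4 - 1) * m with hh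
  have hh2 : h.map (Int.castRingHom (ZMod 2)) ≠ 0 := by
    rw [hh, Polynomial.map_mul]
    have : Fact (Nat.Prime 2) := ⟨Nat.prime_two⟩
    apply mul_ne_zero _ hm2
    intro h0
    have := congrArg (fun p => Polynomial.coeff p 4) h0
    simp [Polynomial.coeff_one, Polynomial.coeff_X_pow] at this
  obtain ⟨N, hN1, G1, G2, hG⟩ := exists_pow_mod h (X + X ^ 2 + X ^ 3) hh2
  obtain ⟨N', rfl⟩ : ∃ N', N = N' + 1 := ⟨N - 1, by omega⟩
  set U : ℤ[X] := X + X ^ 2 + X ^ 3 with hU
  have hUu : toLaurent U = u := by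
    simp [hU, u, toLaurent_X_pow]
  -- e is an idempotent modulo (4, h)
  set e : ℤ[X] := U ^ (2 * (N' + 1)) with he
  set H1 : ℤ[X] := U ^ (N' + 1) * G1 + G1 ^ 2 + h * G1 * G2 with hH1
  set H2 : ℤ[X] := 2 * U ^ (N' + 1) * G2 + h * G2 ^ 2 with hH2
  have hidem : e ^ 2 - e = 4 * H1 + h * H2 := by
    have h1 : e = U ^ (N' + 1) + (2 * G1 + h * G2) := by rw [← hG]; ring
    have h2 : e = (U ^ (N' + 1)) ^ 2 := by rw [he]; ring
    calc e ^ 2 - e = e ^ 2 - (U ^ (N' + 1)) ^ 2 := by rw [← h2]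
      _ = _ := by rw [h1, hH1, hH2]; ring
  set V : ℤ[X] := U ^ (2 * N' + 1) with hV
  have hUV : U * V = e := by rw [hV, he]; ring
  set w : ℤ[X] := 2 + e - U - V with hw
  set a : ℤ[X] := U * e + 1 - e with ha
  set b : ℤ[X] := V * e + 1 - e with hb
  have hab : a * b = 1 + (e ^ 2 - e) * w := by
    have : a * b = (U * V) * e ^ 2 + (U + V) * e * (1 - e) + (1 - e) ^ 2 := by
      rw [ha, hb]; ring
    rw [this, hUV, hw]; ring
  set c : ℤ[X] := H1 * w with hc
  have hkey : (1 : ℤ[X]) + (-a) * b + (2 * c + 2 * c) = -(h * (H2 * w)) := by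
    have : (-a) * b = -(a * b) := by ring
    rw [this, hab, hidem, hc]; ring
  -- memberships
  have hePow : toLaurent e = u ^ (2 * (N' + 1)) := by rw [he, map_pow, hUu]
  have hVPow : toLaurent V = u ^ (2 * N' + 1) := by rw [hV, map_pow, hUu]
  have haI : InI (toLaurent a) := by
    refine ⟨1, ?_⟩
    have : toLaurent a - ((1 : ℤ) : LaurentPolynomial ℤ) * u =
        (u - 1) * (u ^ (2 * (N' + 1)) - 1) := by
      rw [ha, map_sub, map_add, map_mul, hUu, hePow, map_one]; push_cast; ring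
    rw [this]
    exact cI.mul_mem_left _ (mem_cI_of_pow _)
  have hbI : InI (toLaurent b) := by
    refine ⟨1, ?_⟩
    have : toLaurent b - ((1 : ℤ) : LaurentPolynomial ℤ) * u =
        (u ^ (2 * N' + 1) - 1) * (u ^ (2 * (N' + 1)) - 1) + u * (u ^ (2 * N') - 1) := by
      rw [hb, map_sub, map_add, map_mul, hVPow, hePow, map_one]; push_cast; ring
    rw [this]
    exact cI.add_mem (cI.mul_mem_left _ (mem_cI_of_pow _)) (cI.mul_mem_left _ (mem_cI_of_pow _))
  -- vanishing of zeta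
  have hvan : R.q (D.z (toLaurent (-(h * (H2 * w))))) = 0 := by
    have hcI : toLaurent (-(h * (H2 * w))) ∈ cI := by
      have : toLaurent (-(h * (H2 * w))) = (T 4 - 1) * toLaurent (-(m * (H2 * w))) := by
        have e1 : (T 4 - 1 : LaurentPolynomial ℤ) = toLaurent (X ^ 4 - 1) := by
          rw [map_sub, toLaurent_X_pow, map_one]; norm_num
        rw [e1, ← map_mul]; congr 1; rw [hh]; ring
      rw [this]
      exact cI.mul_mem_right _ t4_mem
    have h1 := hadd _ _ (InA_of_mem hcI) (InA_of_mem hcI)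
    have h2 := hal (-(h * (H2 * w)))
    have h3 : aeval al (-(h * (H2 * w))) = 0 := by
      rw [map_neg, map_mul, hh, map_mul, hm0]; simp
    rw [h3] at h2
    rw [two_mul] at h2
    rw [h1] at h2
    have : (2 : K) * R.q (D.z (toLaurent (-(h * (H2 * w))))) = 0 := by linear_combination h2
    exact (mul_eq_zero.mp this).resolve_left two_ne_zero
  -- the torsion element
  set A := toLaurent a with hA
  set B := toLaurent b with hB
  set C2 := (2 * toLaurent c : LaurentPolynomial ℤ) with hC2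
  have hC2A : InA C2 := InA_two_mul _
  have hnA := haI.neg
  have hnB := hbI.neg
  set om : H := D.g * (D.x (-A) * (D.y B * D.z C2)) with hom
  have r1 : D.x (-A) * D.g = D.g * D.x A := by
    have := D.hgx A haI
    rw [← this]
  have r2 : D.y B * D.g = D.g * D.y (-B) := by
    have := D.hgy (-B) hnB
    rw [neg_neg] at this
    exact this.symm
  have r3 : D.x A * D.y (-B) = D.z (A * (-B)) * (D.y (-B) * D.x A) := D.hxy _ _ haI hnB
  have r4 : D.x A * D.x (-A) = 1 := by
    rw [← D.hx _ _ haI hnA, add_neg_cancel, D.x0]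
  have r5 : D.y (-B) * D.y B = 1 := by
    rw [← D.hy _ _ hnB hbI, neg_add_cancel, D.y0]
  have hzc := D.hzc C2 hC2A
  have hsq : om * om = D.z (1 + A * (-B) + (C2 + C2)) := by
    have hABA : InA (A * (-B)) := haI.mul hnB
    rw [D.hz _ _ (InA_one.add hABA) (hC2A.add hC2A), D.hz _ _ InA_one hABA, D.hz _ _ hC2A hC2A,
      ← D.hgg]
    calc om * om = D.g * (D.x (-A) * (D.y B * (D.z C2 * (D.g * (D.x (-A) * (D.y B * D.z C2)))))) := by
          rw [hom]; simp only [mul_assoc]
      _ = D.g * (D.x (-A) * (D.y B * ((D.g * (D.x (-A) * (D.y B * D.z C2))) * D.z C2))) := by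
          rw [hzc (D.g * (D.x (-A) * (D.y B * D.z C2)))]
      _ = D.g * (D.x (-A) * ((D.y B * D.g) * (D.x (-A) * (D.y B * (D.z C2 * D.z C2))))) := by
          simp only [mul_assoc]
      _ = D.g * ((D.x (-A) * D.g) * (D.y (-B) * (D.x (-A) * (D.y B * (D.z C2 * D.z C2))))) := by
          rw [r2]; simp only [mul_assoc]
      _ = D.g * (D.g * ((D.x A * D.y (-B)) * (D.x (-A) * (D.y B * (D.z C2 * D.z C2))))) := by
          rw [r1]; simp only [mul_assoc]
      _ = D.g * (D.g * (D.z (A * (-B)) * (D.y (-B) * ((D.x A * D.x (-A)) *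
            (D.y B * (D.z C2 * D.z C2)))))) := by
          rw [r3]; simp only [mul_assoc]
      _ = D.g * (D.g * (D.z (A * (-B)) * ((D.y (-B) * D.y B) * (D.z C2 * D.z C2)))) := by
          rw [r4, one_mul]; simp only [mul_assoc]
      _ = D.g * D.g * D.z (A * (-B)) * (D.z C2 * D.z C2) := by
          rw [r5, one_mul]; simp only [mul_assoc]
  have harg : (1 + A * (-B) + (C2 + C2) : LaurentPolynomial ℤ) = toLaurent (-(h * (H2 * w))) := by
    rw [← hkey]
    simp only [map_add, map_mul, map_neg, map_one, hA, hB, hC2]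
    have : (toLaurent (2 : ℤ[X]) : LaurentPolynomial ℤ) = 2 := by
      simpa using (toLaurent_C (2 : ℤ))
    rw [this]
    ring
  have hin : InA (1 + A * (-B) + (C2 + C2)) :=
    (InA_one.add (haI.mul hnB)).add (hC2A.add hC2A)
  have htr : R.Triv (om * om) := by
    rw [hsq]
    obtain ⟨c1, c2, c3, c4⟩ := hcen _ hin
    refine ⟨c1, c2, c3, c4, ?_⟩
    rw [harg]; exact hvan
  obtain ⟨t1, t2, _⟩ := htf om htr
  obtain ⟨c1, c2, _, _⟩ := hcen C2 hC2A
  rw [hom, map_mul, map_mul, map_mul] at t1 t2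
  rw [c1] at t1
  rw [c2, hg, hx _ hnA, hy _ hbI] at t2
  have : (2 : K) = 0 := by linear_combination -t1 - t2
  exact two_ne_zero this

end Pool.Agent.Work.MP_0ed2d6_al
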