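import Pool.Agent.Work.MP_0ed2d6_al.Grp
import Pool.Agent.Work.MP_0ed2d6_al.Rep4

set_option autoImplicit false

open LaurentPolynomial Matrix

namespace Pool.Agent.Work.MP_0ed2d6_al

variable (tU : ℂˣ)

theorem zM_comm (c : LaurentPolynomial ℤ) {m : GL (Fin 3) ℂ} (hm : m ∈ Gp tU) :
    zM tU c * m = m * zM tU c := by
  obtain ⟨dl, k, a, b, c', d, hdl, ha, hb, hc, hd, rfl⟩ := good_of_mem tU hm
  rw [zM, M_mul, M_mul]
  congr 1
  · simp
  · simp
  · simp
  · simp; ring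

open Classical in
/-- The relations hold in the group. -/
noncomputable def relG : Rel (Gp tU) where
  x a := if h : InI a then ⟨xM tU a, xM_mem tU a h⟩ else 1
  y a := if h : InI a then ⟨yM tU a, yM_mem tU a h⟩ else 1
  z a := if h : InA a then ⟨zM tU a, zM_mem tU a h⟩ else 1
  g := ⟨gM, gM_mem tU⟩
  x0 := by
    rw [dif_pos InI_zero]; ext1; exact xM_zero tU
  y0 := by
    rw [dif_pos InI_zero]; ext1; exact yM_zero tU
  hx := by
    intro a a' ha ha'
    rw [dif_pos ha, dif_pos ha', dif_pos (ha.add ha')]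
    ext1; exact xM_add tU a a'
  hy := by
    intro a a' ha ha'
    rw [dif_pos ha, dif_pos ha', dif_pos (ha.add ha')]
    ext1; exact yM_add tU a a'
  hz := by
    intro a a' ha ha'
    rw [dif_pos ha, dif_pos ha', dif_pos (ha.add ha')]
    ext1; exact zM_add tU a a'
  hxy := by
    intro a b ha hb
    rw [dif_pos ha, dif_pos hb, dif_pos (ha.mul hb)]
    ext1; exact xM_yM tU a b
  hzc := by
    intro c hc h
    rw [dif_pos hc]
    ext1; exact zM_comm tU c h.2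
  hgx := by
    intro a ha
    rw [dif_pos ha, dif_pos ha.neg]
    ext1; exact gM_xM tU a
  hgy := by
    intro a ha
    rw [dif_pos ha, dif_pos ha.neg]
    ext1; exact gM_yM tU a
  hgg := by
    rw [dif_pos InA_one]
    ext1; exact gM_gM tU

/-- Coordinates from a triangular representation. -/
noncomputable def tRep {H : Type*} [Group H] {K : Type*} [Field K] (ρ : H →* GL (Fin 3) K)
    (hρ : ∀ h, (ρ h : Matrix (Fin 3) (Fin 3) K) 1 0 = 0 ∧ (ρ h : Matrix (Fin 3) (Fin 3) K) 2 0 = 0 ∧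
        (ρ h : Matrix (Fin 3) (Fin 3) K) 2 1 = 0 ∧
        (ρ h : Matrix (Fin 3) (Fin 3) K) 2 2 = (ρ h : Matrix (Fin 3) (Fin 3) K) 0 0) : TRep H K where
  α :=
    { toFun := fun h => (ρ h : Matrix (Fin 3) (Fin 3) K) 0 0
      map_one' := by simp
      map_mul' := by
        intro a b
        obtain ⟨b1, b2, b3, b4⟩ := hρ b
        rw [map_mul, Units.val_mul, Matrix.mul_apply, Fin.sum_univ_three, b1, b2]; ring }
  β :=
    { toFun := fun h => (ρ h : Matrix (Fin 3) (Fin 3) K) 1 1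
      map_one' := by simp
      map_mul' := by
        intro a b
        obtain ⟨a1, a2, a3, a4⟩ := hρ a
        obtain ⟨b1, b2, b3, b4⟩ := hρ b
        rw [map_mul, Units.val_mul, Matrix.mul_apply, Fin.sum_univ_three, a1, b3]; ring }
  p h := (ρ h : Matrix (Fin 3) (Fin 3) K) 0 1
  r h := (ρ h : Matrix (Fin 3) (Fin 3) K) 1 2
  q h := (ρ h : Matrix (Fin 3) (Fin 3) K) 0 2
  hp := by
    intro a b
    obtain ⟨b1, b2, b3, b4⟩ := hρ b
    rw [map_mul, Units.val_mul, Matrix.mul_apply, Fin.sum_univ_three, b3]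
    show _ = (ρ a : Matrix (Fin 3) (Fin 3) K) 0 0 * _ + _ * (ρ b : Matrix (Fin 3) (Fin 3) K) 1 1
    ring
  hr := by
    intro a b
    obtain ⟨a1, a2, a3, a4⟩ := hρ a
    obtain ⟨b1, b2, b3, b4⟩ := hρ b
    rw [map_mul, Units.val_mul, Matrix.mul_apply, Fin.sum_univ_three, a1, b4]
    show _ = (ρ a : Matrix (Fin 3) (Fin 3) K) 1 1 * _ + _ * (ρ b : Matrix (Fin 3) (Fin 3) K) 0 0
    ring
  hq := by
    intro a b
    obtain ⟨b1, b2, b3, b4⟩ := hρ b
    rw [map_mul, Units.val_mul, Matrix.mul_apply, Fin.sum_univ_three, b4]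
    rfl

theorem tRep_triv {H : Type*} [Group H] {K : Type*} [Field K] (ρ : H →* GL (Fin 3) K)
    (hρ : ∀ h, (ρ h : Matrix (Fin 3) (Fin 3) K) 1 0 = 0 ∧ (ρ h : Matrix (Fin 3) (Fin 3) K) 2 0 = 0 ∧
        (ρ h : Matrix (Fin 3) (Fin 3) K) 2 1 = 0 ∧
        (ρ h : Matrix (Fin 3) (Fin 3) K) 2 2 = (ρ h : Matrix (Fin 3) (Fin 3) K) 0 0) (h : H) :
    (tRep ρ hρ).Triv h ↔ ρ h = 1 := by
  constructor
  · rintro ⟨c1, c2, c3, c4, c5⟩
    obtain ⟨b1, b2, b3, b4⟩ := hρ h
    have c1' : (ρ h : Matrix (Fin 3) (Fin 3) K) 0 0 = 1 := c1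
    have c2' : (ρ h : Matrix (Fin 3) (Fin 3) K) 1 1 = 1 := c2
    have c3' : (ρ h : Matrix (Fin 3) (Fin 3) K) 0 1 = 0 := c3
    have c4' : (ρ h : Matrix (Fin 3) (Fin 3) K) 1 2 = 0 := c4
    have c5' : (ρ h : Matrix (Fin 3) (Fin 3) K) 0 2 = 0 := c5
    rw [c1'] at b4
    ext i j
    fin_cases i <;> fin_cases j <;> simp [b1, b2, b3, b4, c1', c2', c3', c4', c5']
  · intro h1
    refine ⟨?_, ?_, ?_, ?_, ?_⟩
    · show (ρ h : Matrix (Fin 3) (Fin 3) K) 0 0 = 1
      rw [h1]; simp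
    · show (ρ h : Matrix (Fin 3) (Fin 3) K) 1 1 = 1
      rw [h1]; simp
    · show (ρ h : Matrix (Fin 3) (Fin 3) K) 0 1 = 0
      rw [h1]; simp
    · show (ρ h : Matrix (Fin 3) (Fin 3) K) 1 2 = 0
      rw [h1]; simp
    · show (ρ h : Matrix (Fin 3) (Fin 3) K) 0 2 = 0
      rw [h1]; simp

/-- Every representation over the algebraic numbers with torsion-free image kills `z 1`. -/
theorem killed {H : Type*} [Group H] (D : Rel H) {K : Type*} [Field K] [CharZero K]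
    [IsAlgClosed K] [Algebra ℚ K] [Algebra.IsAlgebraic ℚ K] (φ : H →* GL (Fin 3) K)
    (htf : ∀ h : H, IsOfFinOrder (φ h) → φ h = 1) : φ (D.z 1) = 1 := by
  by_contra hne
  have hz : ∀ h : H, D.z 1 * h = h * D.z 1 := D.hzc 1 InA_one
  have hδ : ∀ δ : H →* K, δ (D.z 1) = 1 := by
    intro δ
    have hδ0 : ∀ h : H, δ h ≠ 0 := by
      intro h h0
      have : δ (h * h⁻¹) = 1 := by simp
      rw [map_mul, h0, zero_mul] at this
      exact zero_ne_one this
    apply expandz D (P := fun h => δ h = 1)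
    · intro a b ha hb; rw [map_mul, ha, hb, one_mul]
    · intro a b hab hb; rwa [map_mul, hb, mul_one] at hab
    · exact InA_one
    · intro a b ha hb
      have h1 := congrArg δ (D.hxy (1 * a) b (InA_one.mulI ha) hb)
      simp only [map_mul] at h1
      apply mul_right_cancel₀ (mul_ne_zero (hδ0 (D.y b)) (hδ0 (D.x (1 * a))))
      linear_combination -h1
  have hz6 : φ (D.z 1) ^ 6 ≠ 1 := by
    intro h6
    exact hne (htf _ (isOfFinOrder_iff_pow_eq_one.mpr ⟨6, by norm_num, h6⟩))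
  have hnc : ∃ a b : H, φ a * φ b ≠ φ b * φ a := by
    by_contra hcon
    push Not at hcon
    apply hne
    apply expandz D (P := fun h => φ h = 1)
    · intro a b ha hb; rw [map_mul, ha, hb, one_mul]
    · intro a b hab hb; rwa [map_mul, hb, mul_one] at hab
    · exact InA_one
    · intro a b ha hb
      have h1 := congrArg φ (D.hxy (1 * a) b (InA_one.mulI ha) hb)
      simp only [map_mul] at h1
      rw [hcon] at h1
      exact (mul_eq_right.mp h1.symm)
  obtain ⟨ρ, hρ1, hρ⟩ := normal_form φ (D.z 1) hz hδ hz6 hnc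
  have htf' : ∀ h, (tRep ρ hρ).Triv (h * h) → (tRep ρ hρ).Triv h := by
    intro h hh
    rw [tRep_triv, hρ1] at hh ⊢
    apply htf
    rw [isOfFinOrder_iff_pow_eq_one]
    exact ⟨2, by norm_num, by rw [pow_two, ← map_mul, hh]⟩
  have hfin := rep_final D (tRep ρ hρ) htf' (hδ _) (hδ _)
  rw [tRep_triv, hρ1] at hfin
  exact hne hfin

open Classical in
theorem main : ∃ G : Subgroup (Matrix.GeneralLinearGroup (Fin 3) ℂ), G.FG ∧
    (∀ x : G, IsOfFinOrder x → x = 1) ∧ ∃ g : G, g ≠ 1 ∧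
    ∀ φ : G →* Matrix.GeneralLinearGroup (Fin 3) (AlgebraicClosure ℚ),
      (∀ h ∈ φ.range, IsOfFinOrder h → h = 1) → φ g = 1 := by
  obtain ⟨t, ht⟩ := exists_tr
  have ht0 : t ≠ 0 := by
    rintro rfl
    exact ht isAlgebraic_zero
  set tU : ℂˣ := Units.mk0 t ht0 with htU
  have ht' : Transcendental ℤ (tU : ℂ) := ht
  refine ⟨Gp tU, Gp_fg tU, ?_, (relG tU).z 1, ?_, ?_⟩
  · intro x hx
    obtain ⟨n, hn, hx⟩ := isOfFinOrder_iff_pow_eq_one.mp hx
    ext1
    apply torsion_free tU ht' x.2 n hn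
    rw [← Subgroup.coe_pow, hx]; rfl
  · intro h
    have h1 : (((relG tU).z 1 : Gp tU) : GL (Fin 3) ℂ) = 1 := by rw [h]; rfl
    have h2 : (((relG tU).z 1 : Gp tU) : GL (Fin 3) ℂ) = zM tU 1 := by
      show (((if h : InA 1 then (⟨zM tU 1, zM_mem tU 1 h⟩ : Gp tU) else 1) : Gp tU) : GL (Fin 3) ℂ) = _
      rw [dif_pos InA_one]
    rw [h2, zM, ← M_one] at h1
    obtain ⟨_, _, _, h3⟩ := M_inj h1
    rw [mul_one, map_ofNat] at h3
    norm_num at h3
  · intro φ hφ
    exact @killed _ _ (relG tU) (AlgebraicClosure ℚ) _ _ _ _ (AlgebraicClosure.isAlgebraic ℚ) φ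
      (fun h hh => hφ _ ⟨h, rfl⟩ hh)

end Pool.Agent.Work.MP_0ed2d6_al

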