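import Mathlib

set_option autoImplicit false

open Polynomial

namespace Pool.Agent.Work.MP_0ed2d6_al

/-- In a finite monoid every element has an idempotent power. -/
theorem exists_idem_pow {R : Type*} [Monoid R] [Finite R] (x : R) :
    ∃ N : ℕ, 1 ≤ N ∧ x ^ (2 * N) = x ^ N := by
  obtain ⟨i, j, hij, h⟩ := Finite.exists_ne_map_eq_of_infinite (fun n : ℕ => x ^ n)
  wlog hlt : i < j generalizing i j
  · exact this j i hij.symm h.symm (lt_of_le_of_ne (not_lt.mp hlt) hij.symm)
  obtain ⟨d, rfl⟩ := Nat.exists_eq_add_of_lt hlt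
  -- x^i = x^(i+d+1)
  have hper : ∀ n, i ≤ n → x ^ n = x ^ (n + (d + 1)) := by
    intro n hn
    obtain ⟨k, rfl⟩ := Nat.exists_eq_add_of_le hn
    calc x ^ (i + k) = x ^ i * x ^ k := pow_add _ _ _
      _ = x ^ (i + d + 1) * x ^ k := by rw [h]
      _ = x ^ (i + k + (d + 1)) := by rw [← pow_add]; congr 1; ring
  have hper2 : ∀ m n, i ≤ n → x ^ n = x ^ (n + m * (d + 1)) := by
    intro m
    induction m with
    | zero => intro n _; simp
    | succ m ih =>
      intro n hn
      rw [hper n hn, ih (n + (d + 1)) (by omega)]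
      congr 1; ring
  refine ⟨(i + 1) * (d + 1), ?_, ?_⟩
  · exact Nat.one_le_iff_ne_zero.mpr (by positivity)
  · have hle : i ≤ (i + 1) * (d + 1) := by nlinarith
    rw [hper2 (i + 1) _ hle]
    congr 1; ring

/-- Idempotent power modulo `(2, h)`. -/
theorem exists_pow_mod (h U : ℤ[X]) (hh : h.map (Int.castRingHom (ZMod 2)) ≠ 0) :
    ∃ N : ℕ, 1 ≤ N ∧ ∃ G1 G2 : ℤ[X], U ^ (2 * N) - U ^ N = 2 * G1 + h * G2 := by
  set hb := h.map (Int.castRingHom (ZMod 2)) with hhb
  have : Fact (Nat.Prime 2) := ⟨Nat.prime_two⟩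
  have : Module.Finite (ZMod 2) (AdjoinRoot hb) := (AdjoinRoot.powerBasis hh).finite
  have : Finite (AdjoinRoot hb) := Module.finite_of_finite (ZMod 2)
  obtain ⟨N, hN1, hN⟩ := exists_idem_pow (AdjoinRoot.mk hb (U.map (Int.castRingHom (ZMod 2))))
  refine ⟨N, hN1, ?_⟩
  rw [← map_pow, ← map_pow, AdjoinRoot.mk_eq_mk, ← Polynomial.map_pow, ← Polynomial.map_pow,
    ← Polynomial.map_sub] at hN
  obtain ⟨G, hG⟩ := hN
  obtain ⟨G2, hG2⟩ := Polynomial.map_surjective (Int.castRingHom (ZMod 2))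
    (ZMod.ringHom_surjective _) G
  have hz : (U ^ (2 * N) - U ^ N - h * G2).map (Int.castRingHom (ZMod 2)) = 0 := by
    rw [Polynomial.map_sub, hG, Polynomial.map_mul, hG2, ← hhb, sub_self]
  have hdvd : C (2 : ℤ) ∣ (U ^ (2 * N) - U ^ N - h * G2) := by
    rw [Polynomial.C_dvd_iff_dvd_coeff]
    intro i
    have := congrArg (fun p => Polynomial.coeff p i) hz
    simp only [Polynomial.coeff_map, Polynomial.coeff_zero] at this
    have h2 := (ZMod.intCast_zmod_eq_zero_iff_dvd ((U ^ (2 * N) - U ^ N - h * G2).coeff i) 2).mp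
      (by simpa using this)
    exact_mod_cast h2
  obtain ⟨G1, hG1⟩ := hdvd
  refine ⟨G1, G2, ?_⟩
  have : (2 : ℤ[X]) = C 2 := by simp
  rw [this, ← hG1]; ring

/-- An algebraic number is a root of an integral polynomial which is nonzero modulo two. -/
theorem exists_poly {K : Type*} [Field K] [CharZero K] [Algebra ℚ K] [Algebra.IsAlgebraic ℚ K]
    (al : K) : ∃ m : ℤ[X], m.map (Int.castRingHom (ZMod 2)) ≠ 0 ∧ Polynomial.aeval al m = 0 := by
  have halg : IsAlgebraic ℤ al :=
    (IsFractionRing.isAlgebraic_iff ℤ ℚ K).mpr (Algebra.IsAlgebraic.isAlgebraic al)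
  obtain ⟨p, hp0, hp⟩ := halg
  refine ⟨p.primPart, ?_, ?_⟩
  · intro h0
    have hprim := p.isPrimitive_primPart
    have hdvd : C (2 : ℤ) ∣ p.primPart := by
      rw [Polynomial.C_dvd_iff_dvd_coeff]
      intro i
      have := congrArg (fun p => Polynomial.coeff p i) h0
      simp only [Polynomial.coeff_map, Polynomial.coeff_zero] at this
      have h2 := (ZMod.intCast_zmod_eq_zero_iff_dvd (p.primPart.coeff i) 2).mp
        (by simpa using this)
      exact_mod_cast h2
    have := hprim 2 hdvd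
    norm_num [Int.isUnit_iff] at this
  · rw [p.eq_C_content_mul_primPart] at hp
    rw [map_mul, aeval_C] at hp
    rcases mul_eq_zero.mp hp with h | h
    · exfalso
      have : p.content = 0 := by
        have h' : ((p.content : ℤ) : K) = 0 := by simpa using h
        exact_mod_cast h'
      exact hp0 (Polynomial.content_eq_zero_iff.mp this)
    · exact h

end Pool.Agent.Work.MP_0ed2d6_al
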