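import Pool.Agent.Work.MP_0ed2d6_al.Mat

set_option autoImplicit false

open LaurentPolynomial Matrix

namespace Pool.Agent.Work.MP_0ed2d6_al

/-- Generation of `I` over `ℤ[t^4, t^-4]`. -/
theorem gen_I (S : AddSubgroup (LaurentPolynomial ℤ)) (hT : ∀ a ∈ S, T 4 * a ∈ S)
    (hT' : ∀ a ∈ S, T (-4) * a ∈ S) (hu : u ∈ S) (h2 : ∀ i : ℕ, i < 4 → 2 * T (i : ℤ) ∈ S)
    (h4 : ∀ i : ℕ, i < 4 → (T 4 - 1) * T (i : ℤ) ∈ S) : ∀ a, InI a → a ∈ S := by
  have hTq : ∀ q : ℤ, ∀ a ∈ S, T (4 * q) * a ∈ S := by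
    intro q
    induction q using Int.induction_on with
    | zero => intro a ha; simpa using ha
    | succ q ih =>
      intro a ha
      have : (T (4 * ((q : ℤ) + 1)) * a : LaurentPolynomial ℤ) = T 4 * (T (4 * (q : ℤ)) * a) := by
        rw [← mul_assoc, ← T_add]; congr 2; ring
      rw [this]; exact hT _ (ih a ha)
    | pred q ih =>
      intro a ha
      have : (T (4 * (-(q : ℤ) - 1)) * a : LaurentPolynomial ℤ) = T (-4) * (T (4 * (-(q : ℤ))) * a) := by
        rw [← mul_assoc, ← T_add]; congr 2; ring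
      rw [this]; exact hT' _ (ih a ha)
  have hall : ∀ w : LaurentPolynomial ℤ, (∀ i : ℕ, i < 4 → w * T (i : ℤ) ∈ S) →
      ∀ p : LaurentPolynomial ℤ, w * p ∈ S := by
    intro w hw p
    have hk : ∀ k : ℤ, w * T k ∈ S := by
      intro k
      have h0 := Int.emod_nonneg k (by norm_num : (4 : ℤ) ≠ 0)
      have h4' := Int.emod_lt_of_pos k (by norm_num : (0 : ℤ) < 4)
      obtain ⟨r, hr⟩ : ∃ r : ℕ, k % 4 = (r : ℤ) := ⟨(k % 4).toNat, by omega⟩
      have hr4 : r < 4 := by omega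
      have hkk : k = 4 * (k / 4) + (r : ℤ) := by omega
      have : (w * T k : LaurentPolynomial ℤ) = T (4 * (k / 4)) * (w * T (r : ℤ)) := by
        conv_lhs => rw [hkk, T_add]
        ring
      rw [this]
      exact hTq _ _ (hw r hr4)
    induction p using LaurentPolynomial.induction_on' with
    | add p q hp hq => rw [mul_add]; exact S.add_mem hp hq
    | C_mul_T n a =>
      have : (w * (LaurentPolynomial.C a * T n) : LaurentPolynomial ℤ) = a • (w * T n) := by
        have : (LaurentPolynomial.C a : LaurentPolynomial ℤ) = (a : LaurentPolynomial ℤ) := by simp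
        rw [this, zsmul_eq_mul]; ring
      rw [this]
      exact S.zsmul_mem (hk n) a
  rintro a ⟨n, hn⟩
  rw [cI, Ideal.mem_span_pair] at hn
  obtain ⟨p, q, hpq⟩ := hn
  have : a = n • u + 2 * p + (T 4 - 1) * q := by
    rw [zsmul_eq_mul]; linear_combination -hpq
  rw [this]
  exact S.add_mem (S.add_mem (S.zsmul_mem hu n) (hall 2 h2 p)) (hall (T 4 - 1) h4 q)

section
variable (tU : ℂˣ)

/-- Evaluation at the chosen number. -/
noncomputable def ev : LaurentPolynomial ℤ →+* ℂ := LaurentPolynomial.eval₂ (Int.castRingHom ℂ) tU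

theorem ev_T (n : ℤ) : ev tU (T n) = ((tU ^ n : ℂˣ) : ℂ) := LaurentPolynomial.eval₂_T _ _ _

theorem ev_inj (ht : Transcendental ℤ (tU : ℂ)) : Function.Injective (ev tU) := by
  rw [injective_iff_map_eq_zero]
  intro f hf
  obtain ⟨n, g, hg⟩ := exists_T_pow f
  have h1 : ev tU (Polynomial.toLaurent g) = 0 := by rw [hg, map_mul, hf, zero_mul]
  rw [ev, LaurentPolynomial.eval₂_toLaurent] at h1
  have h2 : g = 0 := by
    by_contra hne
    exact ht ⟨g, hne, by rw [Polynomial.aeval_def]; exact h1⟩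
  rw [h2, map_zero] at hg
  calc f = f * T (n : ℤ) * T (-(n : ℤ)) := by rw [mul_assoc, ← T_add]; simp
    _ = 0 := by rw [← hg, zero_mul]

noncomputable def xM (a : LaurentPolynomial ℤ) : GL (Fin 3) ℂ := M 1 (ev tU (2 * a)) 0 0
noncomputable def yM (a : LaurentPolynomial ℤ) : GL (Fin 3) ℂ := M 1 0 (ev tU a) 0
noncomputable def zM (a : LaurentPolynomial ℤ) : GL (Fin 3) ℂ := M 1 0 0 (ev tU (2 * a))
noncomputable def gM : GL (Fin 3) ℂ := M (-1) 0 0 1
noncomputable def sM : GL (Fin 3) ℂ := M (tU ^ (4 : ℤ)) 0 0 0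

/-- Generators of `I`. -/
def gensI : Set (LaurentPolynomial ℤ) :=
  {u} ∪ (fun i : ℕ => 2 * T (i : ℤ)) '' (Finset.range 4 : Set ℕ) ∪
    (fun i : ℕ => (T 4 - 1) * T (i : ℤ)) '' (Finset.range 4 : Set ℕ)

theorem gensI_finite : gensI.Finite := by
  apply Set.Finite.union
  · apply Set.Finite.union
    · exact Set.finite_singleton _
    · exact (Finset.finite_toSet _).image _
  · exact (Finset.finite_toSet _).image _

theorem gensI_InI (a : LaurentPolynomial ℤ) (ha : a ∈ gensI) : InI a := by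
  rcases ha with (ha | ⟨i, _, rfl⟩) | ⟨i, _, rfl⟩
  · rw [Set.mem_singleton_iff] at ha; rw [ha]; exact InI_u
  · exact InI_two_mul _
  · exact InI_of_mem (cI.mul_mem_right _ t4_mem)

/-- Generators of the group. -/
def gens : Set (GL (Fin 3) ℂ) := {gM, sM tU} ∪ (xM tU) '' gensI ∪ (yM tU) '' gensI

/-- The group. -/
def Gp : Subgroup (GL (Fin 3) ℂ) := Subgroup.closure (gens tU)

theorem Gp_fg : (Gp tU).FG := by
  rw [Subgroup.fg_iff]
  refine ⟨gens tU, rfl, ?_⟩
  apply Set.Finite.union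
  · apply Set.Finite.union
    · exact Set.toFinite _
    · exact gensI_finite.image _
  · exact gensI_finite.image _

theorem xM_add (a b : LaurentPolynomial ℤ) : xM tU (a + b) = xM tU a * xM tU b := by
  rw [xM, xM, xM, M_mul]; congr 1
  · simp
  · rw [mul_add, map_add]; simp; ring
  · simp
  · simp

theorem yM_add (a b : LaurentPolynomial ℤ) : yM tU (a + b) = yM tU a * yM tU b := by
  rw [yM, yM, yM, M_mul]; congr 1
  · simp
  · simp
  · rw [map_add]; simp; ring
  · simp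

theorem zM_add (a b : LaurentPolynomial ℤ) : zM tU (a + b) = zM tU a * zM tU b := by
  rw [zM, zM, zM, M_mul]; congr 1
  · simp
  · simp
  · simp
  · rw [mul_add, map_add]; simp; ring

theorem xM_zero : xM tU 0 = 1 := by rw [xM, ← M_one]; simp
theorem yM_zero : yM tU 0 = 1 := by rw [yM, ← M_one]; simp
theorem zM_zero : zM tU 0 = 1 := by rw [zM, ← M_one]; simp

theorem xM_neg (a : LaurentPolynomial ℤ) : xM tU (-a) = (xM tU a)⁻¹ := by
  rw [eq_inv_iff_mul_eq_one, ← xM_add]; simp [xM_zero]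
theorem yM_neg (a : LaurentPolynomial ℤ) : yM tU (-a) = (yM tU a)⁻¹ := by
  rw [eq_inv_iff_mul_eq_one, ← yM_add]; simp [yM_zero]
theorem zM_neg (a : LaurentPolynomial ℤ) : zM tU (-a) = (zM tU a)⁻¹ := by
  rw [eq_inv_iff_mul_eq_one, ← zM_add]; simp [zM_zero]

theorem xM_yM (a b : LaurentPolynomial ℤ) :
    xM tU a * yM tU b = zM tU (a * b) * (yM tU b * xM tU a) := by
  rw [xM, yM, zM, M_mul, M_mul, M_mul]; congr 1
  · simp
  · simp
  · simp
  · simp [mul_assoc]

theorem gM_xM (a : LaurentPolynomial ℤ) : gM * xM tU a = xM tU (-a) * gM := by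
  rw [gM, xM, xM, M_mul, M_mul]; congr 1 <;> simp

theorem gM_yM (a : LaurentPolynomial ℤ) : gM * yM tU a = yM tU (-a) * gM := by
  rw [gM, yM, yM, M_mul, M_mul]; congr 1 <;> simp

theorem gM_gM : gM * gM = zM tU 1 := by
  rw [gM, zM, M_mul]; congr 1
  · norm_num
  · norm_num
  · norm_num
  · rw [mul_one, map_ofNat]; norm_num

theorem sM_xM (a : LaurentPolynomial ℤ) : sM tU * xM tU (T 4 * a) = xM tU a * sM tU := by
  rw [sM, xM, xM, M_mul, M_mul]; congr 1
  · simp
  · simp [ev_T]; ring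
  · simp
  · simp

theorem sM_yM (a : LaurentPolynomial ℤ) : sM tU * yM tU a = yM tU (T 4 * a) * sM tU := by
  rw [sM, yM, yM, M_mul, M_mul]; congr 1
  · simp
  · simp
  · simp [ev_T]; ring
  · simp

end

end Pool.Agent.Work.MP_0ed2d6_al
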