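import Pool.Agent.Work.MP_0ed2d6_al.Gens

set_option autoImplicit false

open LaurentPolynomial Matrix

namespace Pool.Agent.Work.MP_0ed2d6_al

variable (tU : ℂˣ)

theorem gM_mem : gM ∈ Gp tU := Subgroup.subset_closure (Or.inl (Or.inl (Or.inl rfl)))
theorem sM_mem : sM tU ∈ Gp tU := Subgroup.subset_closure (Or.inl (Or.inl (Or.inr rfl)))

theorem xM_mem (a : LaurentPolynomial ℤ) (ha : InI a) : xM tU a ∈ Gp tU := by
  let S : AddSubgroup (LaurentPolynomial ℤ) :=
    { carrier := {a | xM tU a ∈ Gp tU}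
      zero_mem' := by
        show xM tU 0 ∈ Gp tU
        rw [xM_zero]; exact (Gp tU).one_mem
      add_mem' := by
        intro a b ha hb
        show xM tU (a + b) ∈ Gp tU
        rw [xM_add]; exact (Gp tU).mul_mem ha hb
      neg_mem' := by
        intro a ha
        show xM tU (-a) ∈ Gp tU
        rw [xM_neg]; exact (Gp tU).inv_mem ha }
  have hgen : ∀ a ∈ gensI, a ∈ S := fun a ha =>
    Subgroup.subset_closure (Or.inl (Or.inr ⟨a, ha, rfl⟩))
  have hs := sM_mem tU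
  have hT : ∀ a ∈ S, T 4 * a ∈ S := by
    intro a ha
    show xM tU (T 4 * a) ∈ Gp tU
    have : xM tU (T 4 * a) = (sM tU)⁻¹ * (xM tU a * sM tU) := by
      rw [← sM_xM]; group
    rw [this]
    exact (Gp tU).mul_mem ((Gp tU).inv_mem hs) ((Gp tU).mul_mem ha hs)
  have hT' : ∀ a ∈ S, T (-4) * a ∈ S := by
    intro a ha
    show xM tU (T (-4) * a) ∈ Gp tU
    have e : T 4 * (T (-4) * a) = a := by rw [← mul_assoc, ← T_add]; simp
    have : xM tU (T (-4) * a) = sM tU * xM tU a * (sM tU)⁻¹ := by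
      have := sM_xM tU (T (-4) * a)
      rw [e] at this
      rw [this]; group
    rw [this]
    exact (Gp tU).mul_mem ((Gp tU).mul_mem hs ha) ((Gp tU).inv_mem hs)
  refine gen_I S hT hT' ?_ ?_ ?_ a ha
  · exact hgen _ (Or.inl (Or.inl rfl))
  · intro i hi
    exact hgen _ (Or.inl (Or.inr ⟨i, by simpa using hi, rfl⟩))
  · intro i hi
    exact hgen _ (Or.inr ⟨i, by simpa using hi, rfl⟩)

theorem yM_mem (a : LaurentPolynomial ℤ) (ha : InI a) : yM tU a ∈ Gp tU := by
  let S : AddSubgroup (LaurentPolynomial ℤ) :=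
    { carrier := {a | yM tU a ∈ Gp tU}
      zero_mem' := by
        show yM tU 0 ∈ Gp tU
        rw [yM_zero]; exact (Gp tU).one_mem
      add_mem' := by
        intro a b ha hb
        show yM tU (a + b) ∈ Gp tU
        rw [yM_add]; exact (Gp tU).mul_mem ha hb
      neg_mem' := by
        intro a ha
        show yM tU (-a) ∈ Gp tU
        rw [yM_neg]; exact (Gp tU).inv_mem ha }
  have hgen : ∀ a ∈ gensI, a ∈ S := fun a ha =>
    Subgroup.subset_closure (Or.inr ⟨a, ha, rfl⟩)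
  have hs := sM_mem tU
  have hT : ∀ a ∈ S, T 4 * a ∈ S := by
    intro a ha
    show yM tU (T 4 * a) ∈ Gp tU
    have : yM tU (T 4 * a) = sM tU * yM tU a * (sM tU)⁻¹ := by
      rw [sM_yM]; group
    rw [this]
    exact (Gp tU).mul_mem ((Gp tU).mul_mem hs ha) ((Gp tU).inv_mem hs)
  have hT' : ∀ a ∈ S, T (-4) * a ∈ S := by
    intro a ha
    show yM tU (T (-4) * a) ∈ Gp tU
    have e : T 4 * (T (-4) * a) = a := by rw [← mul_assoc, ← T_add]; simp
    have : yM tU (T (-4) * a) = (sM tU)⁻¹ * (yM tU a * sM tU) := by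
      have := sM_yM tU (T (-4) * a)
      rw [e] at this
      rw [← this]; group
    rw [this]
    exact (Gp tU).mul_mem ((Gp tU).inv_mem hs) ((Gp tU).mul_mem ha hs)
  refine gen_I S hT hT' ?_ ?_ ?_ a ha
  · exact hgen _ (Or.inl (Or.inl rfl))
  · intro i hi
    exact hgen _ (Or.inl (Or.inr ⟨i, by simpa using hi, rfl⟩))
  · intro i hi
    exact hgen _ (Or.inr ⟨i, by simpa using hi, rfl⟩)

theorem zM_mul_mem (a b : LaurentPolynomial ℤ) (ha : InI a) (hb : InI b) :
    zM tU (a * b) ∈ Gp tU := by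
  have : zM tU (a * b) = xM tU a * yM tU b * (yM tU b * xM tU a)⁻¹ := by
    rw [xM_yM]; group
  rw [this]
  exact (Gp tU).mul_mem ((Gp tU).mul_mem (xM_mem tU a ha) (yM_mem tU b hb))
    ((Gp tU).inv_mem ((Gp tU).mul_mem (yM_mem tU b hb) (xM_mem tU a ha)))

theorem zM_mem (c : LaurentPolynomial ℤ) (hc : InA c) : zM tU c ∈ Gp tU := by
  have e := expand c
  have h1 : zM tU ((c * kap * u) * u) ∈ Gp tU := by
    apply zM_mul_mem
    · have : c * kap * u = kap * (c * u) := by ring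
      rw [this]; exact InI_of_mem (cI.mul_mem_right _ kap_mem)
    · exact InI_u
  have h2 : zM tU ((c * u) * u) ∈ Gp tU := zM_mul_mem tU _ _ (hc.mulI InI_u) InI_u
  have h3 : zM tU ((c * kap) * kap) ∈ Gp tU := zM_mul_mem tU _ _ (hc.mulI InI_kap) InI_kap
  have : zM tU c = zM tU ((c * u) * u) * zM tU ((c * kap) * kap) * (zM tU ((c * kap * u) * u))⁻¹ := by
    rw [← zM_add, ← e, zM_add]; group
  rw [this]
  exact (Gp tU).mul_mem ((Gp tU).mul_mem h2 h3) ((Gp tU).inv_mem h1)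

/-- Explicit shape of the elements of the group. -/
def Good (m : GL (Fin 3) ℂ) : Prop :=
  ∃ (dl k : ℤ) (a b c : LaurentPolynomial ℤ) (d : ℂˣ), (dl = 0 ∨ dl = 1) ∧ InI a ∧ InI b ∧ InA c ∧
    (d : ℂ) = ev tU ((1 - 2 * (dl : LaurentPolynomial ℤ)) * T (4 * k)) ∧
    m = M d (ev tU (2 * a)) (ev tU b) (ev tU (2 * c + (dl : LaurentPolynomial ℤ)))

theorem InA_T4k (k : ℤ) : InA (T (4 * k)) := by
  induction k using Int.induction_on with
  | zero => simpa using InA_one
  | succ q ih =>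
    have : (T (4 * ((q : ℤ) + 1)) : LaurentPolynomial ℤ) = T 4 * T (4 * (q : ℤ)) := by
      rw [← T_add]; congr 1; ring
    rw [this]; exact InA_T4.mul ih
  | pred q ih =>
    have : (T (4 * (-(q : ℤ) - 1)) : LaurentPolynomial ℤ) = T (-4) * T (4 * (-(q : ℤ))) := by
      rw [← T_add]; congr 1; ring
    rw [this]; exact InA_Tm4.mul ih

theorem InA_int (n : ℤ) : InA (n : LaurentPolynomial ℤ) := ⟨n, by simp⟩

theorem Good.mul {m m' : GL (Fin 3) ℂ} (h : Good tU m) (h' : Good tU m') : Good tU (m * m') := by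
  obtain ⟨dl, k, a, b, c, d, hdl, ha, hb, hc, hd, rfl⟩ := h
  obtain ⟨dl', k', a', b', c', d', hdl', ha', hb', hc', hd', rfl⟩ := h'
  have hE : ∀ (e : ℤ) (l : ℤ), InA ((1 - 2 * (e : LaurentPolynomial ℤ)) * T (4 * l)) := by
    intro e l
    have : (1 - 2 * (e : LaurentPolynomial ℤ)) = ((1 - 2 * e : ℤ) : LaurentPolynomial ℤ) := by
      push_cast; ring
    rw [this]; exact (InA_int _).mul (InA_T4k _)
  refine ⟨dl + dl' - 2 * dl * dl', k + k', a' + ((1 - 2 * (dl' : LaurentPolynomial ℤ)) * T (4 * k')) * a,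
    ((1 - 2 * (dl : LaurentPolynomial ℤ)) * T (4 * k)) * b' + b, c' + a * b' + c + (dl * dl' : ℤ),
    d * d', ?_, ?_, ?_, ?_, ?_, ?_⟩
  · rcases hdl with rfl | rfl <;> rcases hdl' with rfl | rfl <;> simp
  · exact ha'.add ((hE _ _).mulI ha)
  · exact ((hE _ _).mulI hb').add hb
  · exact ((hc'.add (ha.mul hb')).add hc).add (InA_int _)
  · rw [Units.val_mul, hd, hd', ← map_mul]
    congr 1
    rw [mul_add 4 k k', T_add]; push_cast; ring
  · rw [M_mul]; congr 1
    · rw [hd', ← map_mul, ← map_add]; congr 1; ring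
    · rw [hd, ← map_mul, ← map_add]
    · rw [← map_mul, ← map_add, ← map_add]; congr 1; push_cast; ring

theorem Good.inv {m : GL (Fin 3) ℂ} (h : Good tU m) : Good tU m⁻¹ := by
  obtain ⟨dl, k, a, b, c, d, hdl, ha, hb, hc, hd, rfl⟩ := h
  have hE : ∀ (e : ℤ) (l : ℤ), InA ((1 - 2 * (e : LaurentPolynomial ℤ)) * T (4 * l)) := by
    intro e l
    have : (1 - 2 * (e : LaurentPolynomial ℤ)) = ((1 - 2 * e : ℤ) : LaurentPolynomial ℤ) := by
      push_cast; ring
    rw [this]; exact (InA_int _).mul (InA_T4k _)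
  set E : LaurentPolynomial ℤ := (1 - 2 * (dl : LaurentPolynomial ℤ)) * T (4 * (-k)) with hEdef
  have hEA : InA E := hE _ _
  have hmulE : ((1 - 2 * (dl : LaurentPolynomial ℤ)) * T (4 * k)) * E = 1 := by
    have hT : (T (4 * k) * T (4 * (-k)) : LaurentPolynomial ℤ) = 1 := by
      rw [← T_add]; simp
    have hs : (1 - 2 * (dl : LaurentPolynomial ℤ)) * (1 - 2 * (dl : LaurentPolynomial ℤ)) = 1 := by
      rcases hdl with rfl | rfl
      · simp
      · push_cast; ring
    rw [hEdef]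
    calc (1 - 2 * (dl : LaurentPolynomial ℤ)) * T (4 * k) * ((1 - 2 * (dl : LaurentPolynomial ℤ)) * T (4 * (-k)))
        = ((1 - 2 * (dl : LaurentPolynomial ℤ)) * (1 - 2 * (dl : LaurentPolynomial ℤ))) * (T (4 * k) * T (4 * (-k))) := by ring
      _ = 1 := by rw [hs, hT, one_mul]
  have hdinv : ((d⁻¹ : ℂˣ) : ℂ) = ev tU E := by
    have h1 : ev tU E * (d : ℂ) = 1 := by rw [mul_comm, hd, ← map_mul, hmulE, map_one]
    exact (Units.eq_inv_of_mul_eq_one_right h1).symm
  refine ⟨dl, -k, -(E * a), -(E * b), -c + E * (a * b) - dl, d⁻¹, hdl, (hEA.mulI ha).neg,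
    (hEA.mulI hb).neg, ?_, ?_, ?_⟩
  · rw [sub_eq_add_neg]
    exact (hc.neg.add (hEA.mul (ha.mul hb))).add (InA_int _).neg
  · exact hdinv
  · rw [M_inv, hdinv]
    congr 1
    · rw [← map_mul, ← map_neg]; congr 1; ring
    · rw [← map_mul, ← map_neg]; congr 1; ring
    · rw [← map_neg, ← map_mul, ← map_mul, ← map_add]; congr 1
      ring

theorem good_of_mem {m : GL (Fin 3) ℂ} (h : m ∈ Gp tU) : Good tU m := by
  induction h using Subgroup.closure_induction with
  | mem m hm =>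
    rcases hm with ((rfl | hm) | ⟨a, ha, rfl⟩) | ⟨a, ha, rfl⟩
    · refine ⟨1, 0, 0, 0, 0, -1, Or.inr rfl, InI_zero, InI_zero, InA_zero, ?_, ?_⟩
      · simp only [Int.cast_one, mul_one, mul_zero, T_zero, map_sub, map_one, map_ofNat]; norm_num
      · rw [gM]; simp
    · rw [Set.mem_singleton_iff] at hm
      rw [hm]
      refine ⟨0, 1, 0, 0, 0, tU ^ (4 : ℤ), Or.inl rfl, InI_zero, InI_zero, InA_zero, ?_, ?_⟩
      · simp only [Int.cast_zero, mul_zero, sub_zero, one_mul, mul_one]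
        rw [ev_T]
      · rw [sM]; simp
    · refine ⟨0, 0, a, 0, 0, 1, Or.inl rfl, gensI_InI a ha, InI_zero, InA_zero, ?_, ?_⟩
      · simp
      · rw [xM]; simp
    · refine ⟨0, 0, 0, a, 0, 1, Or.inl rfl, InI_zero, gensI_InI a ha, InA_zero, ?_, ?_⟩
      · simp
      · rw [yM]; simp
  | one =>
    refine ⟨0, 0, 0, 0, 0, 1, Or.inl rfl, InI_zero, InI_zero, InA_zero, ?_, ?_⟩
    · simp
    · rw [← M_one]; simp
  | mul a b _ _ ha hb => exact ha.mul tU hb
  | inv a _ ha => exact ha.inv tU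

theorem M_pow (d : ℂˣ) (A b c : ℂ) (n : ℕ) : ∃ A' b' c', M d A b c ^ n = M (d ^ n) A' b' c' := by
  induction n with
  | zero => exact ⟨0, 0, 0, by rw [pow_zero, pow_zero, M_one]⟩
  | succ n ih =>
    obtain ⟨A', b', c', h⟩ := ih
    rw [pow_succ, h, M_mul]
    exact ⟨_, _, _, by rw [pow_succ]⟩

theorem M_pow_one (A b c : ℂ) (n : ℕ) : ∃ c', M 1 A b c ^ n = M 1 (n * A) (n * b) c' := by
  induction n with
  | zero => exact ⟨0, by simp [M_one]⟩
  | succ n ih =>
    obtain ⟨c', h⟩ := ih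
    rw [pow_succ, h, M_mul]
    refine ⟨c + n * A * b + c', ?_⟩
    congr 1
    · simp
    · push_cast; simp; ring
    · push_cast; simp; ring

theorem M_pow_c (c : ℂ) (n : ℕ) : M 1 0 0 c ^ n = M 1 0 0 (n * c) := by
  induction n with
  | zero => simp [M_one]
  | succ n ih =>
    rw [pow_succ, ih, M_mul]
    congr 1
    · simp
    · simp
    · simp
    · push_cast; ring

theorem torsion_free (ht : Transcendental ℤ (tU : ℂ)) {m : GL (Fin 3) ℂ} (hm : m ∈ Gp tU) (n : ℕ)
    (hn : 0 < n) (h : m ^ n = 1) : m = 1 := by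
  obtain ⟨dl, k, a, b, c, d, hdl, ha, hb, hc, hd, rfl⟩ := good_of_mem tU hm
  have hinj := ev_inj tU ht
  have hnC : (n : ℂ) ≠ 0 := by exact_mod_cast hn.ne'
  -- first k = 0
  obtain ⟨A', b', c', hp⟩ := M_pow d (ev tU (2 * a)) (ev tU b) (ev tU (2 * c + (dl : LaurentPolynomial ℤ))) n
  rw [hp, ← M_one] at h
  have hdn : d ^ n = 1 := (M_inj h).1
  have hT : (T (4 * k * (2 * n)) : LaurentPolynomial ℤ) = 1 := by
    apply hinj
    have h1 : ((d ^ n : ℂˣ) : ℂ) = 1 := by rw [hdn]; simp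
    rw [Units.val_pow_eq_pow_val, hd] at h1
    have h2 : (ev tU ((1 - 2 * (dl : LaurentPolynomial ℤ)) * T (4 * k)) ^ n) ^ 2 = 1 := by
      rw [h1]; simp
    rw [← map_pow, ← map_pow] at h2
    rw [map_one, ← h2]
    congr 1
    have hs : (1 - 2 * (dl : LaurentPolynomial ℤ)) ^ 2 = 1 := by
      rcases hdl with rfl | rfl
      · simp
      · push_cast; ring
    have hpw : ∀ x y : LaurentPolynomial ℤ, (x ^ 2) ^ n * y ^ (2 * n) = ((x * y) ^ n) ^ 2 := by
      intro x y; rw [← pow_mul, ← pow_mul, mul_pow, mul_comm 2 n]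
    calc (T (4 * k * (2 * n)) : LaurentPolynomial ℤ) = T (4 * k) ^ (2 * n) := by
          rw [T_pow]; congr 1; push_cast; ring
      _ = ((1 - 2 * (dl : LaurentPolynomial ℤ)) ^ 2) ^ n * T (4 * k) ^ (2 * n) := by
          rw [hs]; simp
      _ = _ := hpw _ _
  have hk : k = 0 := by
    have h1 := congrArg (fun p : LaurentPolynomial ℤ => p.coeff 0) hT
    rw [← T_zero] at h1
    simp only [T_apply] at h1
    by_contra hk
    have : (4 * k * (2 * (n : ℤ))) ≠ 0 := by
      have : (n : ℤ) ≠ 0 := by exact_mod_cast hn.ne'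
      positivity
    simp [this] at h1
  subst hk
  rcases hdl with rfl | rfl
  · -- unipotent case
    have hd1 : d = 1 := by ext1; rw [hd]; simp
    subst hd1
    obtain ⟨c'', hp1⟩ := M_pow_one (ev tU (2 * a)) (ev tU b) (ev tU (2 * c + ((0 : ℤ) : LaurentPolynomial ℤ))) n
    rw [← hp, hp1] at h
    obtain ⟨_, hA, hB, _⟩ := M_inj h
    have hA0 := (mul_eq_zero.mp hA).resolve_left hnC
    have hB0 := (mul_eq_zero.mp hB).resolve_left hnC
    rw [hA0, hB0] at hp1 ⊢
    rw [hA0, hB0] at hp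
    rw [M_pow_c, mul_zero] at hp1
    rw [hA0, hB0, mul_zero, ← hp1] at h
    obtain ⟨_, _, _, hC⟩ := M_inj h
    have hC0 := (mul_eq_zero.mp hC).resolve_left hnC
    rw [hC0, M_one]
  · exfalso
    have hd1 : d = -1 := by
      ext1; rw [hd]
      simp only [Int.cast_one, mul_one, mul_zero, T_zero, map_sub, map_one, map_ofNat]; norm_num
    subst hd1
    rw [← hp, M_one] at h
    have hsq : M (-1) (ev tU (2 * a)) (ev tU b) (ev tU (2 * c + ((1 : ℤ) : LaurentPolynomial ℤ))) ^ 2 =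
        M 1 0 0 (ev tU (2 * (1 + 2 * c + a * b))) := by
      rw [pow_two, M_mul]
      congr 1
      · simp
      · simp
      · simp
      · rw [← map_mul, ← map_add, ← map_add]; congr 1; push_cast; ring
    have h2 : M 1 0 0 (ev tU (2 * (1 + 2 * c + a * b))) ^ n = 1 := by
      rw [← hsq, ← pow_mul, mul_comm 2 n, pow_mul, h, one_pow]
    rw [M_pow_c, ← M_one] at h2
    obtain ⟨_, _, _, hC⟩ := M_inj h2
    have hC0 := (mul_eq_zero.mp hC).resolve_left hnC
    have h3 : 2 * (1 + 2 * c + a * b) = 0 := hinj (by rw [hC0, map_zero])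
    have h4 : (1 + 2 * c + a * b : LaurentPolynomial ℤ) = 0 := by
      have h5 : (2 : ℤ) • (1 + 2 * c + a * b : LaurentPolynomial ℤ) = 0 := by
        rw [zsmul_eq_mul]; exact_mod_cast h3
      exact (smul_eq_zero.mp h5).resolve_left (by norm_num)
    exact no_sol a b c ha h4

end Pool.Agent.Work.MP_0ed2d6_al
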