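import Mathlib

set_option autoImplicit false

open Matrix Module

namespace Pool.Agent.Work.MP_0ed2d6_al

variable {K : Type*} [Field K]


/-- If `N` is a 3x3 matrix with `N^2 ≠ 0`, `N^3 = 0`, any two matrices commuting with `N` commute. -/
theorem comm_of_regular {N X Y : Matrix (Fin 3) (Fin 3) K} (hN3 : N * N * N = 0)
    (hN2 : N * N ≠ 0) (hX : X * N = N * X) (hY : Y * N = N * Y) : X * Y = Y * X := by
  classical
  -- choose v
  have hv : ∃ v : Fin 3 → K, (N * N) *ᵥ v ≠ 0 := by
    by_contra h
    push Not at h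
    apply hN2
    apply Matrix.ext_of_mulVec_single
    intro i
    rw [h]; ext j; simp
  obtain ⟨v, hv⟩ := hv
  let b : Fin 3 → (Fin 3 → K) := ![v, N *ᵥ v, (N * N) *ᵥ v]
  have hli : LinearIndependent K b := by
    rw [Fintype.linearIndependent_iff]
    intro g hg
    have h0 : g 0 • v + g 1 • (N *ᵥ v) + g 2 • ((N * N) *ᵥ v) = 0 := by
      simpa [b, Fin.sum_univ_three] using hg
    have h1 : g 0 • ((N * N) *ᵥ v) = 0 := by
      have := congrArg (fun w => (N * N) *ᵥ w) h0
      simp only [mulVec_add, mulVec_smul, mulVec_mulVec, mulVec_zero] at this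
      rw [hN3, ← Matrix.mul_assoc, hN3] at this
      simpa using this
    have g0 : g 0 = 0 := by
      rcases smul_eq_zero.mp h1 with h | h
      · exact h
      · exact absurd h hv
    have h2 : g 1 • ((N * N) *ᵥ v) = 0 := by
      have := congrArg (fun w => N *ᵥ w) h0
      simp only [mulVec_add, mulVec_smul, mulVec_mulVec, mulVec_zero] at this
      rw [← Matrix.mul_assoc, hN3, g0] at this
      simpa using this
    have g1 : g 1 = 0 := by
      rcases smul_eq_zero.mp h2 with h | h
      · exact h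
      · exact absurd h hv
    have h3 : g 2 • ((N * N) *ᵥ v) = 0 := by
      rw [g0, g1] at h0
      simpa using h0
    have g2 : g 2 = 0 := by
      rcases smul_eq_zero.mp h3 with h | h
      · exact h
      · exact absurd h hv
    intro i
    fin_cases i
    · exact g0
    · exact g1
    · exact g2
  have hcard : Fintype.card (Fin 3) = Module.finrank K (Fin 3 → K) := by simp
  let B := basisOfLinearIndependentOfCardEqFinrank hli hcard
  have hB : ∀ i, B i = b i := fun i => by simp [B]
  -- expansions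
  have expand : ∀ w : Fin 3 → K, ∃ a0 a1 a2 : K,
      w = a0 • v + a1 • (N *ᵥ v) + a2 • ((N * N) *ᵥ v) := by
    intro w
    refine ⟨B.repr w 0, B.repr w 1, B.repr w 2, ?_⟩
    have := B.sum_repr w
    rw [Fin.sum_univ_three] at this
    simp only [hB] at this
    exact this.symm
  obtain ⟨x0, x1, x2, hx⟩ := expand (X *ᵥ v)
  obtain ⟨y0, y1, y2, hy⟩ := expand (Y *ᵥ v)
  have hXN : ∀ w : Fin 3 → K, X *ᵥ (N *ᵥ w) = N *ᵥ (X *ᵥ w) := by
    intro w; rw [mulVec_mulVec, mulVec_mulVec, hX]
  have hYN : ∀ w : Fin 3 → K, Y *ᵥ (N *ᵥ w) = N *ᵥ (Y *ᵥ w) := by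
    intro w; rw [mulVec_mulVec, mulVec_mulVec, hY]
  have hN3' : ∀ w : Fin 3 → K, N *ᵥ (N *ᵥ (N *ᵥ w)) = 0 := by
    intro w; rw [mulVec_mulVec, mulVec_mulVec, hN3]; simp
  have e2 : (N * N) *ᵥ v = N *ᵥ (N *ᵥ v) := by rw [mulVec_mulVec]
  have key : X *ᵥ (Y *ᵥ v) = Y *ᵥ (X *ᵥ v) := by
    rw [hx, hy, e2]
    simp only [mulVec_add, mulVec_smul, hXN, hYN]
    rw [hx, hy, e2]
    simp only [mulVec_add, mulVec_smul, hN3', smul_zero, add_zero]
    module
  have key' : ∀ w, X *ᵥ (Y *ᵥ w) = Y *ᵥ (X *ᵥ w) := by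
    intro w
    obtain ⟨a0, a1, a2, hw⟩ := expand w
    rw [hw, e2]
    simp only [mulVec_add, mulVec_smul, hXN, hYN, key]
  apply Matrix.ext_of_mulVec_single
  intro i
  rw [← mulVec_mulVec, ← mulVec_mulVec]
  exact key' _


/-- A nonzero square-zero 3x3 matrix is conjugate to `E13`. -/
theorem conj_of_sq_zero {N : Matrix (Fin 3) (Fin 3) K} (hN2 : N * N = 0) (hN : N ≠ 0) :
    ∃ P : GL (Fin 3) K, N * (P : Matrix (Fin 3) (Fin 3) K) =
      (P : Matrix (Fin 3) (Fin 3) K) * !![0, 0, 1; 0, 0, 0; 0, 0, 0] := by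
  classical
  have hv : ∃ v : Fin 3 → K, N *ᵥ v ≠ 0 := by
    by_contra h
    push Not at h
    apply hN
    apply Matrix.ext_of_mulVec_single
    intro i
    rw [h]; ext j; simp
  obtain ⟨v, hv⟩ := hv
  -- the kernel has dimension at least two
  have hker : ∃ e : Fin 3 → K, N *ᵥ e = 0 ∧ e ∉ Submodule.span K {N *ᵥ v} := by
    by_contra h
    push Not at h
    have hle : LinearMap.ker N.mulVecLin ≤ Submodule.span K {N *ᵥ v} := by
      intro e he
      exact h e (by simpa using he)
    have h1 : finrank K (LinearMap.ker N.mulVecLin) ≤ 1 :=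
      (Submodule.finrank_mono hle).trans (finrank_span_singleton hv).le
    have h2 : LinearMap.range N.mulVecLin ≤ LinearMap.ker N.mulVecLin := by
      rintro _ ⟨w, rfl⟩
      simp [mulVec_mulVec, hN2]
    have h3 := Submodule.finrank_mono h2
    have h4 := LinearMap.finrank_range_add_finrank_ker N.mulVecLin
    simp at h4
    omega
  obtain ⟨e, he0, he⟩ := hker
  have hNNv : N *ᵥ (N *ᵥ v) = 0 := by rw [mulVec_mulVec, hN2]; simp
  let b : Fin 3 → (Fin 3 → K) := ![N *ᵥ v, e, v]
  have hli : LinearIndependent K b := by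
    rw [Fintype.linearIndependent_iff]
    intro g hg
    have h0 : g 0 • (N *ᵥ v) + g 1 • e + g 2 • v = 0 := by
      simpa [b, Fin.sum_univ_three] using hg
    have h1 : g 2 • (N *ᵥ v) = 0 := by
      have := congrArg (fun w => N *ᵥ w) h0
      simpa only [mulVec_add, mulVec_smul, he0, hNNv, mulVec_zero, smul_zero, zero_add] using this
    have g2 : g 2 = 0 := by
      rcases smul_eq_zero.mp h1 with h | h
      · exact h
      · exact absurd h hv
    have g1 : g 1 = 0 := by
      by_contra hne
      apply he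
      rw [g2, zero_smul, add_zero] at h0
      rw [Submodule.mem_span_singleton]
      refine ⟨-(g 1)⁻¹ * g 0, ?_⟩
      have h5 : g 1 • e = -(g 0 • (N *ᵥ v)) := by
        rw [eq_neg_iff_add_eq_zero, add_comm]; exact h0
      calc (-(g 1)⁻¹ * g 0) • (N *ᵥ v) = (g 1)⁻¹ • (-(g 0 • (N *ᵥ v))) := by module
        _ = (g 1)⁻¹ • (g 1 • e) := by rw [h5]
        _ = e := by rw [smul_smul, inv_mul_cancel₀ hne, one_smul]
    have g0 : g 0 = 0 := by
      rw [g2, g1, zero_smul, zero_smul, add_zero, add_zero] at h0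
      rcases smul_eq_zero.mp h0 with h | h
      · exact h
      · exact absurd h hv
    intro i
    fin_cases i
    · exact g0
    · exact g1
    · exact g2
  -- matrix with these columns
  let Q : Matrix (Fin 3) (Fin 3) K := (Matrix.of b)ᵀ
  have hdet : IsUnit Q := by
    rw [← Matrix.isUnit_transpose]
    have : Qᵀ = Matrix.of b := by simp [Q]
    rw [this]
    rw [← Matrix.linearIndependent_rows_iff_isUnit]
    exact hli
  refine ⟨hdet.unit, ?_⟩
  have hQ : ((hdet.unit : GL (Fin 3) K) : Matrix (Fin 3) (Fin 3) K) = Q := rfl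
  rw [hQ]
  have hcol : ∀ j, Q.col j = b j := by intro j; rfl
  have c0 : N *ᵥ (Q.col 0) = 0 := by rw [hcol]; exact hNNv
  have c1 : N *ᵥ (Q.col 1) = 0 := by rw [hcol]; exact he0
  have c2 : N *ᵥ (Q.col 2) = Q.col 0 := by rw [hcol, hcol]; rfl
  ext i j
  have e0 := congrFun c0 i
  have e1 := congrFun c1 i
  have e2 := congrFun c2 i
  simp [mulVec, dotProduct, Fin.sum_univ_three] at e0 e1 e2
  fin_cases j <;> simp [Matrix.mul_apply, Fin.sum_univ_three]
  · exact e0
  · exact e1
  · exact e2


/-- Eigenvalues of a central element killed by all characters are 6th roots of unity. -/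
theorem eig_pow_six {H : Type*} [Group H] (φ : H →* GL (Fin 3) K) (z : H)
    (hz : ∀ h : H, z * h = h * z) (hδ : ∀ δ : H →* K, δ z = 1) (lam : K)
    (hlam : Module.End.HasEigenvalue (Matrix.toLin' (φ z : Matrix (Fin 3) (Fin 3) K)) lam) :
    lam ^ 6 = 1 := by
  classical
  set f : H → Module.End K (Fin 3 → K) := fun h => Matrix.toLin' (φ h : Matrix (Fin 3) (Fin 3) K)
    with hf
  have hfmul : ∀ a b : H, f (a * b) = f a * f b := by
    intro a b; simp [hf, Matrix.toLin'_mul, Module.End.mul_eq_comp]
  have hfone : f 1 = 1 := by simp [hf, Module.End.one_eq_id]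
  have hcomm : ∀ h : H, f z * f h = f h * f z := by
    intro h; rw [← hfmul, ← hfmul, hz]
  set W := Module.End.eigenspace (f z) lam with hW
  have hmaps : ∀ h : H, ∀ w ∈ W, f h w ∈ W := by
    intro h w hw
    rw [hW, Module.End.mem_eigenspace_iff] at hw ⊢
    have := congrArg (fun t : Module.End K (Fin 3 → K) => t w) (hcomm h)
    simp only [Module.End.mul_apply] at this
    rw [this, hw, map_smul]
  let δ : H →* K :=
    { toFun := fun h => LinearMap.det ((f h).restrict (hmaps h))
      map_one' := by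
        have : (f 1).restrict (hmaps 1) = LinearMap.id := by
          ext w; simp [hfone, LinearMap.restrict_apply]
        rw [this, LinearMap.det_id]
      map_mul' := by
        intro a b
        have : (f (a * b)).restrict (hmaps (a * b)) =
            ((f a).restrict (hmaps a)) ∘ₗ ((f b).restrict (hmaps b)) := by
          ext w; simp [hfmul, LinearMap.restrict_apply]
        rw [this, LinearMap.det_comp] }
  have h1 : δ z = lam ^ (Module.finrank K W) := by
    have : (f z).restrict (hmaps z) = lam • LinearMap.id := by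
      ext w
      have hw : f z (w : Fin 3 → K) = lam • (w : Fin 3 → K) :=
        Module.End.mem_eigenspace_iff.mp w.2
      simp [LinearMap.restrict_apply, hw]
    show LinearMap.det ((f z).restrict (hmaps z)) = _
    rw [this, LinearMap.det_smul, LinearMap.det_id, mul_one]
  rw [hδ] at h1
  have hpos : 0 < Module.finrank K W := by
    rw [Module.finrank_pos_iff]
    rw [Submodule.nontrivial_iff_ne_bot]
    exact hlam
  have hle : Module.finrank K W ≤ 3 := by
    have := Submodule.finrank_le W
    simpa using this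
  have : Module.finrank K W = 1 ∨ Module.finrank K W = 2 ∨ Module.finrank K W = 3 := by omega
  rcases this with h | h | h
  · rw [h] at h1
    rw [pow_one] at h1; rw [← h1]; simp
  · rw [h] at h1
    calc lam ^ 6 = (lam ^ 2) ^ 3 := by ring
      _ = 1 := by rw [← h1]; simp
  · rw [h] at h1
    calc lam ^ 6 = (lam ^ 3) ^ 2 := by ring
      _ = 1 := by rw [← h1]; simp

open Polynomial in
theorem nilp_of_eig [IsAlgClosed K] (Z : Matrix (Fin 3) (Fin 3) K)
    (h : ∀ lam : K, Module.End.HasEigenvalue (Matrix.toLin' Z) lam → lam ^ 6 = 1) :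
    (Z ^ 6 - 1) ^ 3 = 0 := by
  classical
  have hsplit := (IsAlgClosed.splits Z.charpoly).eq_prod_roots_of_monic Z.charpoly_monic
  have hcard : Multiset.card Z.charpoly.roots = 3 := by
    rw [← (IsAlgClosed.splits Z.charpoly).natDegree_eq_card_roots, Matrix.charpoly_natDegree_eq_dim]
    simp
  have hroot : ∀ a ∈ Z.charpoly.roots, (X - C a : K[X]) ∣ (X ^ 6 - 1 : K[X]) := by
    intro a ha
    rw [mem_roots Z.charpoly_monic.ne_zero] at ha
    have hev : Module.End.HasEigenvalue (Matrix.toLin' Z) a := by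
      rw [Module.End.hasEigenvalue_iff_isRoot_charpoly]
      have : (Matrix.toLin' Z).charpoly = Z.charpoly := by
        rw [← LinearMap.charpoly_toMatrix (Matrix.toLin' Z) (Pi.basisFun K (Fin 3))]
        congr 1
        simp [LinearMap.toMatrix_eq_toMatrix', LinearMap.toMatrix'_toLin']
      rw [this]
      exact ha
    rw [dvd_iff_isRoot]
    simp [h a hev]
  have hdvd : Z.charpoly ∣ (X ^ 6 - 1 : K[X]) ^ 3 := by
    rw [hsplit]
    have : ∀ s : Multiset K, (∀ a ∈ s, (X - C a : K[X]) ∣ (X ^ 6 - 1 : K[X])) →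
        (s.map (fun a => (X - C a : K[X]))).prod ∣ (X ^ 6 - 1 : K[X]) ^ (Multiset.card s) := by
      intro s
      induction s using Multiset.induction_on with
      | empty => intro _; simp
      | cons a s ih =>
        intro hs
        rw [Multiset.map_cons, Multiset.prod_cons, Multiset.card_cons, pow_succ']
        exact mul_dvd_mul (hs a (Multiset.mem_cons_self a s))
          (ih (fun b hb => hs b (Multiset.mem_cons_of_mem hb)))
    have h3 := this _ hroot
    rwa [hcard] at h3
  obtain ⟨q, hq⟩ := hdvd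
  have := congrArg (aeval Z) hq
  rw [map_mul, Matrix.aeval_self_charpoly, zero_mul] at this
  simpa using this

end Pool.Agent.Work.MP_0ed2d6_al
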