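import Pool.Agent.Work.MP_0ed2d6_al.Obstruction

set_option autoImplicit false

open LaurentPolynomial Matrix

namespace Pool.Agent.Work.MP_0ed2d6_al

/-- The matrix `(1, A, c; 0, d, b; 0, 0, 1)`. -/
noncomputable def M (d : ℂˣ) (A b c : ℂ) : GL (Fin 3) ℂ where
  val := !![1, A, c; 0, (d : ℂ), b; 0, 0, 1]
  inv := !![1, -(A * ((d⁻¹ : ℂˣ) : ℂ)), -c + A * b * ((d⁻¹ : ℂˣ) : ℂ); 0, ((d⁻¹ : ℂˣ) : ℂ), -(b * ((d⁻¹ : ℂˣ) : ℂ)); 0, 0, 1]
  val_inv := by
    ext i j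
    have hd : (d : ℂ) ≠ 0 := d.ne_zero
    fin_cases i <;> fin_cases j <;> simp [Matrix.mul_apply, Fin.sum_univ_three] <;> field_simp <;> ring
  inv_val := by
    ext i j
    have hd : (d : ℂ) ≠ 0 := d.ne_zero
    fin_cases i <;> fin_cases j <;> simp [Matrix.mul_apply, Fin.sum_univ_three] <;> field_simp <;> ring

theorem M_val (d : ℂˣ) (A b c : ℂ) :
    ((M d A b c : GL (Fin 3) ℂ) : Matrix (Fin 3) (Fin 3) ℂ) = !![1, A, c; 0, (d : ℂ), b; 0, 0, 1] := rfl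

theorem M_mul (d d' : ℂˣ) (A b c A' b' c' : ℂ) :
    M d A b c * M d' A' b' c' = M (d * d') (A' + A * d') (d * b' + b) (c' + A * b' + c) := by
  ext1
  rw [Units.val_mul, M_val, M_val, M_val]
  ext i j
  fin_cases i <;> fin_cases j <;> simp [Matrix.mul_apply, Fin.sum_univ_three]

theorem M_one : M 1 0 0 0 = 1 := by
  ext1
  rw [M_val]
  ext i j
  fin_cases i <;> fin_cases j <;> simp

theorem M_inj {d d' : ℂˣ} {A b c A' b' c' : ℂ} (h : M d A b c = M d' A' b' c') :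
    d = d' ∧ A = A' ∧ b = b' ∧ c = c' := by
  have h0 := congrArg (fun t : GL (Fin 3) ℂ => (t : Matrix (Fin 3) (Fin 3) ℂ)) h
  simp only [M_val] at h0
  have h11 := congrFun (congrFun h0 1) 1
  have h01 := congrFun (congrFun h0 0) 1
  have h12 := congrFun (congrFun h0 1) 2
  have h02 := congrFun (congrFun h0 0) 2
  simp at h11 h01 h12 h02
  exact ⟨Units.ext h11, h01, h12, h02⟩

theorem M_inv (d : ℂˣ) (A b c : ℂ) :
    (M d A b c)⁻¹ = M d⁻¹ (-(A * ((d⁻¹ : ℂˣ) : ℂ))) (-(b * ((d⁻¹ : ℂˣ) : ℂ)))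
      (-c + A * b * ((d⁻¹ : ℂˣ) : ℂ)) := by
  rw [inv_eq_iff_mul_eq_one, M_mul, ← M_one]
  congr 1
  · simp
  · simp
  · have hd : (d : ℂ) ≠ 0 := d.ne_zero
    simp; field_simp; ring
  · simp; ring

/-- A transcendental complex number. -/
theorem exists_tr : ∃ t : ℂ, Transcendental ℤ t := by
  have h := transcendental_liouvilleNumber (m := 2) le_rfl
  refine ⟨algebraMap ℝ ℂ (liouvilleNumber (2 : ℕ)), ?_⟩
  exact (transcendental_algebraMap_iff (algebraMap ℝ ℂ).injective).mpr h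

end Pool.Agent.Work.MP_0ed2d6_al
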