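import Pool.Agent.Work.MP_0ed2d6_al.LinAlg

set_option autoImplicit false

open Matrix Module

namespace Pool.Agent.Work.MP_0ed2d6_al

variable {K : Type*} [Field K]

/-- Entries of a matrix commuting with `E13`. -/
theorem entries_of_comm (M : Matrix (Fin 3) (Fin 3) K)
    (h : M * !![0, 0, 1; 0, 0, 0; 0, 0, 0] = !![0, 0, 1; 0, 0, 0; 0, 0, 0] * M) :
    M 1 0 = 0 ∧ M 2 0 = 0 ∧ M 2 1 = 0 ∧ M 2 2 = M 0 0 := by
  have h02 := congrFun (congrFun h 0) 2
  have h12 := congrFun (congrFun h 1) 2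
  have h22 := congrFun (congrFun h 2) 2
  have h01 := congrFun (congrFun h 0) 1
  simp [Matrix.mul_apply, Fin.sum_univ_three] at h02 h12 h22 h01
  exact ⟨h12, h22, h01.symm, h02.symm⟩

/-- Normal form for representations with a central commutator of infinite order. -/
theorem normal_form [IsAlgClosed K] {H : Type*} [Group H] (φ : H →* GL (Fin 3) K) (z : H)
    (hz : ∀ h : H, z * h = h * z) (hδ : ∀ δ : H →* K, δ z = 1) (hz6 : φ z ^ 6 ≠ 1)
    (hnc : ∃ a b : H, φ a * φ b ≠ φ b * φ a) :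
    ∃ ρ : H →* GL (Fin 3) K, (∀ h, ρ h = 1 ↔ φ h = 1) ∧
      ∀ h, (ρ h : Matrix (Fin 3) (Fin 3) K) 1 0 = 0 ∧ (ρ h : Matrix (Fin 3) (Fin 3) K) 2 0 = 0 ∧
        (ρ h : Matrix (Fin 3) (Fin 3) K) 2 1 = 0 ∧
        (ρ h : Matrix (Fin 3) (Fin 3) K) 2 2 = (ρ h : Matrix (Fin 3) (Fin 3) K) 0 0 := by
  set Z : Matrix (Fin 3) (Fin 3) K := (φ z : Matrix (Fin 3) (Fin 3) K) with hZ
  set N : Matrix (Fin 3) (Fin 3) K := Z ^ 6 - 1 with hN
  have hN3 : N ^ 3 = 0 := nilp_of_eig Z (fun lam hlam => eig_pow_six φ z hz hδ lam hlam)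
  have hN0 : N ≠ 0 := by
    intro h
    apply hz6
    rw [hN, sub_eq_zero] at h
    ext1
    simpa using h
  have hZc : ∀ h : H, Commute (φ h : Matrix (Fin 3) (Fin 3) K) Z := by
    intro h
    have := congrArg (fun t => ((φ t : GL (Fin 3) K) : Matrix (Fin 3) (Fin 3) K)) (hz h)
    simp only [map_mul, Units.val_mul] at this
    exact this.symm
  have hNc : ∀ h : H, (φ h : Matrix (Fin 3) (Fin 3) K) * N = N * (φ h : Matrix (Fin 3) (Fin 3) K) := by
    intro h
    exact (((hZc h).pow_right 6).sub_right (Commute.one_right _)).eq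
  by_cases hN2 : N * N = 0
  · obtain ⟨P, hP⟩ := conj_of_sq_zero hN2 hN0
    let ρ : H →* GL (Fin 3) K :=
      { toFun := fun h => P⁻¹ * φ h * P
        map_one' := by simp
        map_mul' := by intro a b; simp [mul_assoc] }
    refine ⟨ρ, ?_, ?_⟩
    · intro h
      show P⁻¹ * φ h * P = 1 ↔ φ h = 1
      constructor
      · intro h1
        have : φ h = P * (P⁻¹ * φ h * P) * P⁻¹ := by group
        rw [this, h1]; simp
      · intro h1; rw [h1]; simp
    · intro h
      apply entries_of_comm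
      have hPi : (P⁻¹ : GL (Fin 3) K).val * P.val = 1 := by
        rw [← Units.val_mul]; simp
      have hPi' : P.val * (P⁻¹ : GL (Fin 3) K).val = 1 := by
        rw [← Units.val_mul]; simp
      have hρ : ((ρ h : GL (Fin 3) K) : Matrix (Fin 3) (Fin 3) K) =
          (P⁻¹ : GL (Fin 3) K).val * (φ h).val * P.val := by
        have : ρ h = P⁻¹ * φ h * P := rfl
        rw [this, Units.val_mul, Units.val_mul]
      rw [hρ]
      have hE : (!![0, 0, 1; 0, 0, 0; 0, 0, 0] : Matrix (Fin 3) (Fin 3) K) =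
          (P⁻¹ : GL (Fin 3) K).val * N * P.val := by
        rw [mul_assoc, hP, ← mul_assoc, hPi, one_mul]
      rw [hE]
      calc (P⁻¹ : GL (Fin 3) K).val * (φ h).val * P.val * ((P⁻¹ : GL (Fin 3) K).val * N * P.val)
          = (P⁻¹ : GL (Fin 3) K).val * (φ h).val * (P.val * (P⁻¹ : GL (Fin 3) K).val) * N * P.val := by
            simp only [mul_assoc]
        _ = (P⁻¹ : GL (Fin 3) K).val * ((φ h).val * N) * P.val := by
            rw [hPi', mul_one]; simp only [mul_assoc]
        _ = (P⁻¹ : GL (Fin 3) K).val * (N * (φ h).val) * P.val := by rw [hNc]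
        _ = (P⁻¹ : GL (Fin 3) K).val * N * (P.val * (P⁻¹ : GL (Fin 3) K).val) * (φ h).val * P.val := by
            rw [hPi', mul_one]; simp only [mul_assoc]
        _ = _ := by simp only [mul_assoc]
  · exfalso
    obtain ⟨a, b, hab⟩ := hnc
    apply hab
    ext1
    simp only [Units.val_mul]
    have hN3' : N * N * N = 0 := by rw [← hN3]; noncomm_ring
    exact comm_of_regular hN3' hN2 (hNc a) (hNc b)

end Pool.Agent.Work.MP_0ed2d6_al
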