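import Pool.Agent.Work.MP_0ed2d6_al.RingA

set_option autoImplicit false

open LaurentPolynomial

namespace Pool.Agent.Work.MP_0ed2d6_al

/-- Cyclic shift matrices. -/
noncomputable def shiftHom : Multiplicative ℤ →* Matrix (ZMod 4) (ZMod 4) (ZMod 2) where
  toFun k := Matrix.of (fun i j => if i = j + ((Multiplicative.toAdd k : ℤ) : ZMod 4) then 1 else 0)
  map_one' := by
    ext i j
    simp [Matrix.one_apply]
  map_mul' := by
    intro a b
    ext i j
    simp only [Matrix.mul_apply, Matrix.of_apply, toAdd_mul, Int.cast_add, mul_ite, mul_one,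
      mul_zero]
    rw [Finset.sum_eq_single (j + ((Multiplicative.toAdd b : ℤ) : ZMod 4))]
    · simp only [if_true]
      congr 1
      rw [eq_iff_iff]
      constructor
      · intro h; rw [h]; ring
      · intro h; rw [h]; ring
    · intro l _ hl
      rw [if_neg hl]
    · intro h; exact absurd (Finset.mem_univ _) h

/-- The quotient map to the group ring of the cyclic group of order four, in matrix form. -/
noncomputable def chi : LaurentPolynomial ℤ →ₐ[ℤ] Matrix (ZMod 4) (ZMod 4) (ZMod 2) :=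
  AddMonoidAlgebra.lift ℤ (Matrix (ZMod 4) (ZMod 4) (ZMod 2)) ℤ shiftHom

theorem chi_T (k : ℤ) : chi (T k) = Matrix.of (fun i j => if i = j + (k : ZMod 4) then 1 else 0) := by
  rw [chi, T, AddMonoidAlgebra.lift_single]
  simp [shiftHom]

theorem chi_cI (a : LaurentPolynomial ℤ) (ha : a ∈ cI) : chi a = 0 := by
  have hle : cI ≤ RingHom.ker (chi : LaurentPolynomial ℤ →+* Matrix (ZMod 4) (ZMod 4) (ZMod 2)) := by
    rw [cI, Ideal.span_le]
    rintro x (rfl | rfl)
    · show chi 2 = 0
      rw [map_ofNat]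
      ext i j
      have : (2 : Matrix (ZMod 4) (ZMod 4) (ZMod 2)) = (2 : ZMod 2) • 1 := by
        rw [two_smul]; norm_num
      rw [this]
      have h2 : (2 : ZMod 2) = 0 := by decide
      rw [h2]; simp
    · show chi (T 4 - 1) = 0
      rw [map_sub, chi_T, map_one]
      ext i j
      have h4 : (4 : ZMod 4) = 0 := by decide
      simp [h4, Matrix.one_apply]
  exact hle ha

/-- No power of `t` lies in `I`. -/
theorem T_not_InI (k : ℤ) : ¬ InI (T k) := by
  rintro ⟨n, hn⟩
  have h := chi_cI _ hn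
  rw [← zsmul_eq_mul] at h
  rw [map_sub, map_zsmul, chi_T, u, map_add, map_add, chi_T, chi_T, chi_T] at h
  have h1 : ∀ i : ZMod 4, (if i = (k : ZMod 4) then (1 : ZMod 2) else 0) =
      (n : ZMod 2) * (if i = 0 then 0 else 1) := by
    intro i
    have h2 := congrFun (congrFun h i) 0
    simp only [Matrix.sub_apply, Matrix.smul_apply, Matrix.add_apply, Matrix.of_apply,
      Matrix.zero_apply, zero_add, Int.cast_one, Int.cast_ofNat] at h2
    rw [sub_eq_zero, zsmul_eq_mul] at h2
    rw [h2]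
    congr 1
    clear h2 h
    revert i
    decide
  have key : ∀ (k : ZMod 4) (n : ZMod 2), ¬ ∀ i : ZMod 4, (if i = k then (1 : ZMod 2) else 0) =
      n * (if i = 0 then 0 else 1) := by decide
  exact key _ _ h1

theorem zmod2_ne (r : ZMod 2) (h : r ≠ 0) : r = 1 := by
  revert r; decide

/-- Units of `F_2[t,1/t]` are powers of `t`. -/
theorem unit_F2 (f g : LaurentPolynomial (ZMod 2)) (h : f * g = 1) : ∃ k : ℤ, f = T k := by
  have : Fact (Nat.Prime 2) := ⟨Nat.prime_two⟩
  obtain ⟨n, f', hf⟩ := exists_T_pow f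
  obtain ⟨m, g', hg⟩ := exists_T_pow g
  have hprod : f' * g' = (Polynomial.X : Polynomial (ZMod 2)) ^ (n + m) := by
    apply Polynomial.toLaurent_injective
    rw [map_mul, hf, hg, Polynomial.toLaurent_X_pow]
    have : f * T (n : ℤ) * (g * T (m : ℤ)) = (f * g) * (T (n : ℤ) * T (m : ℤ)) := by ring
    rw [this, h, one_mul, ← T_add]; congr 1
  have hdvd : f' ∣ (Polynomial.X : Polynomial (ZMod 2)) ^ (n + m) := ⟨g', hprod.symm⟩
  rw [dvd_prime_pow Polynomial.prime_X] at hdvd
  obtain ⟨i, _, hi⟩ := hdvd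
  obtain ⟨c, hc⟩ := hi
  obtain ⟨r, hr, hrc⟩ := Polynomial.isUnit_iff.mp c.isUnit
  have hr1 : r = 1 := zmod2_ne r hr.ne_zero
  rw [hr1] at hrc
  have hcinv : f' = (Polynomial.X : Polynomial (ZMod 2)) ^ i := by
    rw [← hc, ← hrc]; simp
  refine ⟨(i : ℤ) - n, ?_⟩
  have h1 : f * T (n : ℤ) = T (i : ℤ) := by
    rw [← hf, hcinv, Polynomial.toLaurent_X_pow]
  calc f = f * T (n : ℤ) * T (-(n : ℤ)) := by rw [mul_assoc, ← T_add]; simp
    _ = T ((i : ℤ) - n) := by rw [h1, ← T_add]; congr 1

/-- Reduction modulo two. -/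
noncomputable def red : LaurentPolynomial ℤ →+* LaurentPolynomial (ZMod 2) :=
  AddMonoidAlgebra.mapRingHom ℤ (Int.castRingHom (ZMod 2))

theorem red_T (k : ℤ) : red (T k) = T k := by
  apply LaurentPolynomial.ext
  intro a
  rw [red, AddMonoidAlgebra.coeff_mapRingHom, T_apply, T_apply]
  split_ifs <;> simp

theorem mem_cI_of_red (f : LaurentPolynomial ℤ) (hf : red f = 0) : f ∈ cI := by
  obtain ⟨n, g, hg⟩ := exists_T_pow f
  have hdvd : Polynomial.C (2 : ℤ) ∣ g := by
    rw [Polynomial.C_dvd_iff_dvd_coeff]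
    intro i
    have h1 : red (Polynomial.toLaurent g) = 0 := by rw [hg, map_mul, hf, zero_mul]
    have h2 := congrArg (fun p => p.coeff (i : ℤ)) h1
    simp only [red, AddMonoidAlgebra.coeff_mapRingHom] at h2
    have h3 : (Polynomial.toLaurent g).coeff (i : ℤ) = g.coeff i := by
      rw [coeff_toLaurent]
      exact Finsupp.mapDomain_apply (Nat.castEmbedding (R := ℤ)).injective _ _
    rw [h3] at h2
    have h4 := (ZMod.intCast_zmod_eq_zero_iff_dvd (g.coeff i) 2).mp (by simpa using h2)
    exact_mod_cast h4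
  obtain ⟨g', hg'⟩ := hdvd
  have : f = 2 * (Polynomial.toLaurent g' * T (-(n : ℤ))) := by
    calc f = f * T (n : ℤ) * T (-(n : ℤ)) := by rw [mul_assoc, ← T_add]; simp
      _ = _ := by rw [← hg, hg', map_mul, Polynomial.toLaurent_C]; simp; ring
  rw [this]
  exact cI.mul_mem_right _ two_mem

/-- The obstruction: `1 + 2c + ab ≠ 0` for `a ∈ I`. -/
theorem no_sol (a b c : LaurentPolynomial ℤ) (ha : InI a) : 1 + 2 * c + a * b ≠ 0 := by
  intro h
  have h1 := congrArg red h
  rw [map_add, map_add, map_mul, map_mul, map_one, map_zero, map_ofNat] at h1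
  have h2 : (2 : LaurentPolynomial (ZMod 2)) = 0 := by
    have h2' : (2 : ZMod 2) = 0 := by decide
    have : (LaurentPolynomial.C (2 : ZMod 2) : LaurentPolynomial (ZMod 2)) = 2 := by
      rw [map_ofNat]
    rw [← this, h2', map_zero]
  have h3 : red a * red b = 1 := by
    linear_combination h1 - (1 + red c) * h2
  obtain ⟨k, hk⟩ := unit_F2 _ _ h3
  have h4 : red (a - T k) = 0 := by rw [map_sub, red_T, hk, sub_self]
  have h5 : a - T k ∈ cI := mem_cI_of_red _ h4
  exact T_not_InI k (by
    have : T k = a + -(a - T k) := by ring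
    rw [this]; exact ha.add (InI_of_mem h5).neg)

end Pool.Agent.Work.MP_0ed2d6_al
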