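import Mathlib

set_option autoImplicit false

open LaurentPolynomial

namespace Pool.Agent.Work.MP_0ed2d6_al

/-- The Laurent polynomial `t + t^2 + t^3`. -/
noncomputable def u : LaurentPolynomial ℤ := T 1 + T 2 + T 3

/-- The ideal `(2, t^4 - 1)`. -/
noncomputable def cI : Ideal (LaurentPolynomial ℤ) := Ideal.span {2, T 4 - 1}

/-- Membership in `I = ℤ u + (2, t^4 - 1)`. -/
def InI (a : LaurentPolynomial ℤ) : Prop := ∃ n : ℤ, a - (n : LaurentPolynomial ℤ) * u ∈ cI

/-- Membership in `A = ℤ + (2, t^4 - 1)`. -/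
def InA (a : LaurentPolynomial ℤ) : Prop := ∃ n : ℤ, a - (n : LaurentPolynomial ℤ) ∈ cI

/-- `κ = u^2 - 1`. -/
noncomputable def kap : LaurentPolynomial ℤ := u * u - 1

theorem two_mem : (2 : LaurentPolynomial ℤ) ∈ cI := Ideal.subset_span (by simp)
theorem t4_mem : (T 4 - 1 : LaurentPolynomial ℤ) ∈ cI := Ideal.subset_span (by simp)

theorem kap_mem : kap ∈ cI := by
  have e : kap = 2 * (T 2 + T 3 + T 4 + T 5) + (T 4 - 1) * (T 2 + 1) := by
    simp only [kap, u]
    ring_nf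
    simp only [T_pow, ← T_add]
    norm_num
    ring
  rw [e]
  exact cI.add_mem (cI.mul_mem_right _ two_mem) (cI.mul_mem_right _ t4_mem)

theorem InI_of_mem {a : LaurentPolynomial ℤ} (h : a ∈ cI) : InI a := ⟨0, by simpa using h⟩
theorem InA_of_mem {a : LaurentPolynomial ℤ} (h : a ∈ cI) : InA a := ⟨0, by simpa using h⟩
theorem InI_u : InI u := ⟨1, by simp⟩
theorem InA_one : InA 1 := ⟨1, by simp⟩
theorem InI_zero : InI 0 := InI_of_mem cI.zero_mem
theorem InA_zero : InA 0 := InA_of_mem cI.zero_mem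

theorem InI.add {a b : LaurentPolynomial ℤ} (ha : InI a) (hb : InI b) : InI (a + b) := by
  obtain ⟨n, hn⟩ := ha
  obtain ⟨m, hm⟩ := hb
  refine ⟨n + m, ?_⟩
  have : a + b - ((n + m : ℤ) : LaurentPolynomial ℤ) * u = (a - n * u) + (b - m * u) := by
    push_cast; ring
  rw [this]; exact cI.add_mem hn hm

theorem InI.neg {a : LaurentPolynomial ℤ} (ha : InI a) : InI (-a) := by
  obtain ⟨n, hn⟩ := ha
  refine ⟨-n, ?_⟩
  have : -a - ((-n : ℤ) : LaurentPolynomial ℤ) * u = -(a - n * u) := by push_cast; ring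
  rw [this]; exact cI.neg_mem hn

theorem InA.add {a b : LaurentPolynomial ℤ} (ha : InA a) (hb : InA b) : InA (a + b) := by
  obtain ⟨n, hn⟩ := ha
  obtain ⟨m, hm⟩ := hb
  refine ⟨n + m, ?_⟩
  have : a + b - ((n + m : ℤ) : LaurentPolynomial ℤ) = (a - n) + (b - m) := by
    push_cast; ring
  rw [this]; exact cI.add_mem hn hm

theorem InA.neg {a : LaurentPolynomial ℤ} (ha : InA a) : InA (-a) := by
  obtain ⟨n, hn⟩ := ha
  refine ⟨-n, ?_⟩
  have : -a - ((-n : ℤ) : LaurentPolynomial ℤ) = -(a - n) := by push_cast; ring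
  rw [this]; exact cI.neg_mem hn

theorem InA.mul {a b : LaurentPolynomial ℤ} (ha : InA a) (hb : InA b) : InA (a * b) := by
  obtain ⟨n, hn⟩ := ha
  obtain ⟨m, hm⟩ := hb
  refine ⟨n * m, ?_⟩
  have : a * b - ((n * m : ℤ) : LaurentPolynomial ℤ) = b * (a - n) + n * (b - m) := by
    push_cast; ring
  rw [this]; exact cI.add_mem (cI.mul_mem_left _ hn) (cI.mul_mem_left _ hm)

theorem InA.mulI {a b : LaurentPolynomial ℤ} (ha : InA a) (hb : InI b) : InI (a * b) := by
  obtain ⟨n, hn⟩ := ha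
  obtain ⟨m, hm⟩ := hb
  refine ⟨n * m, ?_⟩
  have : a * b - ((n * m : ℤ) : LaurentPolynomial ℤ) * u = b * (a - n) + n * (b - m * u) := by
    push_cast; ring
  rw [this]; exact cI.add_mem (cI.mul_mem_left _ hn) (cI.mul_mem_left _ hm)

theorem InI.mul {a b : LaurentPolynomial ℤ} (ha : InI a) (hb : InI b) : InA (a * b) := by
  obtain ⟨n, hn⟩ := ha
  obtain ⟨m, hm⟩ := hb
  refine ⟨n * m, ?_⟩
  have : a * b - ((n * m : ℤ) : LaurentPolynomial ℤ)
      = b * (a - n * u) + (n * u) * (b - m * u) + (n * m) * kap := by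
    simp only [kap]; push_cast; ring
  rw [this]
  exact cI.add_mem (cI.add_mem (cI.mul_mem_left _ hn) (cI.mul_mem_left _ hm))
    (cI.mul_mem_left _ kap_mem)

theorem InI_kap : InI kap := InI_of_mem kap_mem
theorem InA_two_mul (a : LaurentPolynomial ℤ) : InA (2 * a) :=
  InA_of_mem (cI.mul_mem_right _ two_mem)
theorem InI_two_mul (a : LaurentPolynomial ℤ) : InI (2 * a) :=
  InI_of_mem (cI.mul_mem_right _ two_mem)

theorem expand (c : LaurentPolynomial ℤ) :
    c + (c * kap * u) * u = (c * u) * u + (c * kap) * kap := by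
  simp only [kap]; ring

theorem InA_T4 : InA (T 4) := ⟨1, by simpa using t4_mem⟩

theorem InA_Tm4 : InA (T (-4)) := by
  refine ⟨1, ?_⟩
  have : (T (-4) - ((1 : ℤ) : LaurentPolynomial ℤ)) = - T (-4) * (T 4 - 1) := by
    have h : (T (-4) * T 4 : LaurentPolynomial ℤ) = 1 := by rw [← T_add]; simp
    push_cast
    linear_combination h
  rw [this]
  exact cI.mul_mem_left _ t4_mem

end Pool.Agent.Work.MP_0ed2d6_al
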