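import Pool.Agent.Work.MP_0ed2d6_al.Normal
import Pool.Agent.Work.MP_0ed2d6_al.RingA
import Pool.Agent.Work.MP_0ed2d6_al.Finite

set_option autoImplicit false

open Matrix Module LaurentPolynomial

namespace Pool.Agent.Work.MP_0ed2d6_al

/-- Data of a group containing a copy of the Heisenberg-type relations. -/
structure Rel (H : Type*) [Group H] where
  x : LaurentPolynomial ℤ → H
  y : LaurentPolynomial ℤ → H
  z : LaurentPolynomial ℤ → H
  g : H
  x0 : x 0 = 1
  y0 : y 0 = 1
  hx : ∀ a a', InI a → InI a' → x (a + a') = x a * x a'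
  hy : ∀ a a', InI a → InI a' → y (a + a') = y a * y a'
  hz : ∀ a a', InA a → InA a' → z (a + a') = z a * z a'
  hxy : ∀ a b, InI a → InI b → x a * y b = z (a * b) * (y b * x a)
  hzc : ∀ c, InA c → ∀ h, z c * h = h * z c
  hgx : ∀ a, InI a → g * x a = x (-a) * g
  hgy : ∀ b, InI b → g * y b = y (-b) * g
  hgg : g * g = z 1

/-- Coordinates of a representation in normal form. -/
structure TRep (H : Type*) [Group H] (K : Type*) [Field K] where
  α : H →* K
  β : H →* K
  p : H → K
  r : H → K
  q : H → K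
  hp : ∀ a b, p (a * b) = α a * p b + p a * β b
  hr : ∀ a b, r (a * b) = β a * r b + r a * α b
  hq : ∀ a b, q (a * b) = α a * q b + p a * r b + q a * α b

namespace TRep

variable {H : Type*} [Group H] {K : Type*} [Field K] (R : TRep H K)

/-- The element acts trivially. -/
def Triv (h : H) : Prop := R.α h = 1 ∧ R.β h = 1 ∧ R.p h = 0 ∧ R.r h = 0 ∧ R.q h = 0

/-- The element acts as `1 + q E13`. -/
def Cen (h : H) : Prop := R.α h = 1 ∧ R.β h = 1 ∧ R.p h = 0 ∧ R.r h = 0

theorem α_ne (h : H) : R.α h ≠ 0 := by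
  intro h0
  have : R.α (h * h⁻¹) = 1 := by simp
  rw [map_mul, h0, zero_mul] at this
  exact zero_ne_one this

theorem β_ne (h : H) : R.β h ≠ 0 := by
  intro h0
  have : R.β (h * h⁻¹) = 1 := by simp
  rw [map_mul, h0, zero_mul] at this
  exact zero_ne_one this

theorem p_one : R.p 1 = 0 := by
  have := R.hp 1 1
  simp at this
  exact this

theorem r_one : R.r 1 = 0 := by
  have := R.hr 1 1
  simp at this
  exact this

theorem q_one : R.q 1 = 0 := by
  have := R.hq 1 1
  simp [p_one] at this
  exact this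

theorem Cen.mul {a b : H} (ha : R.Cen a) (hb : R.Cen b) : R.Cen (a * b) := by
  obtain ⟨a1, a2, a3, a4⟩ := ha
  obtain ⟨b1, b2, b3, b4⟩ := hb
  refine ⟨?_, ?_, ?_, ?_⟩
  · rw [map_mul, a1, b1, one_mul]
  · rw [map_mul, a2, b2, one_mul]
  · rw [R.hp, a3, b3]; ring
  · rw [R.hr, a4, b4]; ring

theorem Cen.q_mul {a b : H} (ha : R.Cen a) (hb : R.Cen b) : R.q (a * b) = R.q a + R.q b := by
  obtain ⟨a1, a2, a3, a4⟩ := ha
  obtain ⟨b1, b2, b3, b4⟩ := hb
  rw [R.hq, a1, b1, a3]; ring

theorem Cen.of_mul_right {a b : H} (hab : R.Cen (a * b)) (hb : R.Cen b) : R.Cen a := by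
  obtain ⟨c1, c2, c3, c4⟩ := hab
  obtain ⟨b1, b2, b3, b4⟩ := hb
  rw [map_mul, b1, mul_one] at c1
  rw [map_mul, b2, mul_one] at c2
  rw [R.hp, b3, b2] at c3
  rw [R.hr, b4, b1] at c4
  refine ⟨c1, c2, ?_, ?_⟩
  · simpa using c3
  · simpa using c4

end TRep

section main

variable {H : Type*} [Group H] {K : Type*} [Field K] (D : Rel H) (R : TRep H K)

/-- The relation `x g x = g`. -/
theorem xgx (a : LaurentPolynomial ℤ) (ha : InI a) : D.x a * (D.g * D.x a) = D.g := by
  rw [D.hgx a ha, ← mul_assoc, ← D.hx a (-a) ha ha.neg]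
  simp [D.x0]

theorem ygy (a : LaurentPolynomial ℤ) (ha : InI a) : D.y a * (D.g * D.y a) = D.g := by
  rw [D.hgy a ha, ← mul_assoc, ← D.hy a (-a) ha ha.neg]
  simp [D.y0]

/-- consequences of `x g x = g`. -/
theorem coords_of_hgh {g h : H} (hh : h * (g * h) = g) :
    R.α h * R.α h = 1 ∧ R.β h * R.β h = 1 ∧
    R.α h * (R.α g * R.p h + R.p g * R.β h) + R.p h * (R.β g * R.β h) = R.p g ∧
    R.β h * (R.β g * R.r h + R.r g * R.α h) + R.r h * (R.α g * R.α h) = R.r g ∧
    R.α h * (R.α g * R.q h + R.p g * R.r h + R.q g * R.α h) +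
      R.p h * (R.β g * R.r h + R.r g * R.α h) + R.q h * (R.α g * R.α h) = R.q g := by
  refine ⟨?_, ?_, ?_, ?_, ?_⟩
  · have := congrArg R.α hh
    rw [map_mul, map_mul] at this
    have h0 := R.α_ne g
    apply mul_left_cancel₀ h0
    linear_combination this
  · have := congrArg R.β hh
    rw [map_mul, map_mul] at this
    have h0 := R.β_ne g
    apply mul_left_cancel₀ h0
    linear_combination this
  · have := congrArg R.p hh
    rw [R.hp, R.hp, map_mul] at this
    linear_combination this
  · have := congrArg R.r hh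
    rw [R.hr, R.hr, map_mul] at this
    linear_combination this
  · have := congrArg R.q hh
    rw [R.hq, R.hq, R.hr, map_mul] at this
    linear_combination this

/-- Sign analysis: if `α g = - β g`, then `α h = β h`, provided squares detect triviality. -/
theorem sign_eq [CharZero K] (htf : ∀ h, R.Triv (h * h) → R.Triv h) {g h : H} (hh : h * (g * h) = g)
    (hg : R.β g = - R.α g) : R.β h = R.α h := by
  obtain ⟨c1, c2, c3, c4, c5⟩ := coords_of_hgh R hh
  have hcases : R.β h = R.α h ∨ R.β h = - R.α h := by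
    have : (R.β h - R.α h) * (R.β h + R.α h) = 0 := by linear_combination c2 - c1
    rcases mul_eq_zero.mp this with h | h
    · left; exact sub_eq_zero.mp h
    · right; exact eq_neg_of_add_eq_zero_left h
  rcases hcases with hc | hc
  · exact hc
  · exfalso
    rw [hc, hg] at c3 c4
    rw [hg] at c5
    -- c3 : α h (α g p h - p g α h) + p h (α g α h) = p g
    have e1 : R.p g = R.α h * R.α g * R.p h := by
      have : (2 : K) * R.p g = 2 * (R.α h * R.α g * R.p h) := by
        linear_combination (-1 : K) * c3 - (R.p g) * c1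
      exact mul_left_cancel₀ two_ne_zero this
    have e2 : R.r g = R.α h * R.α g * R.r h := by
      have : (2 : K) * R.r g = 2 * (R.α h * R.α g * R.r h) := by
        linear_combination (-1 : K) * c4 - (R.r g) * c1
      exact mul_left_cancel₀ two_ne_zero this
    have e3 : 2 * R.α h * R.q h + R.p h * R.r h = 0 := by
      rw [e1, e2] at c5
      have h0 := R.α_ne g
      apply mul_left_cancel₀ h0
      linear_combination c5 - (R.q g + 2 * R.α g * R.p h * R.r h) * c1
    have ht : R.Triv (h * h) := by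
      refine ⟨?_, ?_, ?_, ?_, ?_⟩
      · rw [map_mul]; exact c1
      · rw [map_mul]; exact c2
      · rw [R.hp, hc]; ring
      · rw [R.hr, hc]; ring
      · rw [R.hq]; linear_combination e3
    obtain ⟨t1, t2, _⟩ := htf h ht
    rw [t1, t2] at hc
    have : (2 : K) = 0 := by linear_combination hc
    exact two_ne_zero this

end main

end Pool.Agent.Work.MP_0ed2d6_al
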