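import Pool.Agent.Work.MP_0ed2d6_al.Rep1

set_option autoImplicit false

open Matrix Module LaurentPolynomial

namespace Pool.Agent.Work.MP_0ed2d6_al

namespace TRep

variable {H : Type*} [Group H] {K : Type*} [Field K] (R : TRep H K)

theorem Triv.mul {a b : H} (ha : R.Triv a) (hb : R.Triv b) : R.Triv (a * b) := by
  obtain ⟨a1, a2, a3, a4, a5⟩ := ha
  obtain ⟨b1, b2, b3, b4, b5⟩ := hb
  refine ⟨?_, ?_, ?_, ?_, ?_⟩
  · rw [map_mul, a1, b1, one_mul]
  · rw [map_mul, a2, b2, one_mul]
  · rw [R.hp, a3, b3]; ring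
  · rw [R.hr, a4, b4]; ring
  · rw [R.hq, a5, b5, a3]; ring

theorem Triv.of_mul_right {a b : H} (hab : R.Triv (a * b)) (hb : R.Triv b) : R.Triv a := by
  obtain ⟨c1, c2, c3, c4, c5⟩ := hab
  obtain ⟨b1, b2, b3, b4, b5⟩ := hb
  rw [map_mul, b1, mul_one] at c1
  rw [map_mul, b2, mul_one] at c2
  rw [R.hp, b3, b2] at c3
  rw [R.hr, b4, b1] at c4
  rw [R.hq, b5, b1, b4] at c5
  refine ⟨c1, c2, ?_, ?_, ?_⟩
  · simpa using c3
  · simpa using c4
  · simpa using c5

/-- If `x` acts as a matrix `1 + q E13` then the commutator with anything acts trivially. -/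
theorem triv_comm {x y z : H} (hx : R.Cen x) (h : x * y = z * (y * x)) : R.Triv z := by
  obtain ⟨x1, x2, x3, x4⟩ := hx
  have a1 := congrArg R.α h
  have a2 := congrArg R.β h
  have a3 := congrArg R.p h
  have a4 := congrArg R.r h
  have a5 := congrArg R.q h
  simp only [map_mul, R.hp, R.hr, R.hq, x1, x2, x3, x4] at a1 a2 a3 a4 a5
  have hα := R.α_ne y
  have hβ := R.β_ne y
  have z1 : R.α z = 1 := by
    apply mul_right_cancel₀ hα; linear_combination -a1
  have z2 : R.β z = 1 := by
    apply mul_right_cancel₀ hβ; linear_combination -a2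
  rw [z1] at a3 a5
  rw [z2] at a4
  have z3 : R.p z = 0 := by
    apply mul_right_cancel₀ hβ; linear_combination -a3
  have z4 : R.r z = 0 := by
    apply mul_right_cancel₀ hα; linear_combination -a4
  rw [z3] at a5
  have z5 : R.q z = 0 := by
    apply mul_right_cancel₀ hα; linear_combination -a5
  exact ⟨z1, z2, z3, z4, z5⟩

/-- Commutator of two scalar-times-unipotent elements. -/
theorem cen_comm {x y z : H} (hx : R.β x = R.α x) (hy : R.β y = R.α y)
    (hx1 : R.α x * R.α x = 1) (hy1 : R.α y * R.α y = 1) (h : x * y = z * (y * x)) :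
    R.Cen z ∧ R.q z = (R.α x * R.p x) * (R.α y * R.r y) - (R.α x * R.r x) * (R.α y * R.p y) := by
  have a1 := congrArg R.α h
  have a2 := congrArg R.β h
  have a3 := congrArg R.p h
  have a4 := congrArg R.r h
  have a5 := congrArg R.q h
  simp only [map_mul, R.hp, R.hr, R.hq, hx, hy] at a1 a2 a3 a4 a5
  have hαx := R.α_ne x
  have hαy := R.α_ne y
  have hne : R.α x * R.α y ≠ 0 := mul_ne_zero hαx hαy
  have z1 : R.α z = 1 := by
    apply mul_right_cancel₀ hne; linear_combination -a1
  have z2 : R.β z = 1 := by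
    apply mul_right_cancel₀ hne; linear_combination -a2
  rw [z1] at a3 a5
  rw [z2] at a4
  have z3 : R.p z = 0 := by
    apply mul_right_cancel₀ hne; linear_combination -a3
  have z4 : R.r z = 0 := by
    apply mul_right_cancel₀ hne; linear_combination -a4
  rw [z3] at a5
  refine ⟨⟨z1, z2, z3, z4⟩, ?_⟩
  apply mul_right_cancel₀ hne
  linear_combination -a5 - (R.p x * R.r y - R.r x * R.p y) * R.α x * R.α x * (hy1) -
    (R.p x * R.r y - R.r x * R.p y) * hx1

end TRep

section main

variable {H : Type*} [Group H] {K : Type*} [Field K] (D : Rel H) (R : TRep H K)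

theorem expandz {P : H → Prop} (hmul : ∀ a b, P a → P b → P (a * b))
    (hdiv : ∀ a b, P (a * b) → P b → P a) (c : LaurentPolynomial ℤ) (hc : InA c)
    (h : ∀ a b, InI a → InI b → P (D.z ((c * a) * b))) : P (D.z c) := by
  have e := expand c
  have h1 : InA ((c * kap * u) * u) := by
    have : (c * kap * u) * u = c * (kap * u * u) := by ring
    rw [this]
    exact hc.mul (InI.mul (InI_of_mem (cI.mul_mem_right _ kap_mem)) InI_u)
  have h2 : InA ((c * u) * u) := (hc.mulI InI_u).mul InI_u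
  have h3 : InA ((c * kap) * kap) := (hc.mulI InI_kap).mul InI_kap
  have e2 : D.z c * D.z ((c * kap * u) * u) = D.z ((c * u) * u) * D.z ((c * kap) * kap) := by
    rw [← D.hz _ _ hc h1, ← D.hz _ _ h2 h3, e]
  have p1 : P (D.z ((c * kap * u) * u)) := by
    have := h (kap * u) u (InI_of_mem (cI.mul_mem_right _ kap_mem)) InI_u
    rwa [← mul_assoc] at this
  apply hdiv _ _ _ p1
  rw [e2]
  exact hmul _ _ (h u u InI_u InI_u) (h kap kap InI_kap InI_kap)

/-- `β g = - α g`. -/
theorem beta_g [CharZero K] (htf : ∀ h, R.Triv (h * h) → R.Triv h)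
    (hα : R.α (D.z 1) = 1) (hβ : R.β (D.z 1) = 1) (hnt : ¬ R.Triv (D.z 1)) :
    R.β D.g = - R.α D.g := by
  have g1 : R.α D.g * R.α D.g = 1 := by rw [← map_mul, D.hgg, hα]
  have g2 : R.β D.g * R.β D.g = 1 := by rw [← map_mul, D.hgg, hβ]
  have hcases : R.β D.g = R.α D.g ∨ R.β D.g = - R.α D.g := by
    have : (R.β D.g - R.α D.g) * (R.β D.g + R.α D.g) = 0 := by linear_combination g2 - g1
    rcases mul_eq_zero.mp this with h | h
    · left; exact sub_eq_zero.mp h
    · right; exact eq_neg_of_add_eq_zero_left h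
  rcases hcases with hc | hc
  swap
  · exact hc
  exfalso
  apply hnt
  have hcen : ∀ a, InI a → R.Cen (D.x (a + a)) := by
    intro a ha
    have hh := xgx D (a + a) (ha.add ha)
    obtain ⟨c1, c2, c3, c4, c5⟩ := coords_of_hgh R hh
    obtain ⟨d1, d2, _, _, _⟩ := coords_of_hgh R (xgx D a ha)
    have e1 : R.α (D.x (a + a)) = 1 := by rw [D.hx a a ha ha, map_mul, d1]
    have e2 : R.β (D.x (a + a)) = 1 := by rw [D.hx a a ha ha, map_mul, d2]
    rw [e1, e2, hc] at c3 c4
    have hne : (2 : K) * R.α D.g ≠ 0 := mul_ne_zero two_ne_zero (R.α_ne _)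
    refine ⟨e1, e2, ?_, ?_⟩
    · apply mul_left_cancel₀ hne; linear_combination c3
    · apply mul_left_cancel₀ hne; linear_combination c4
  have htriv : ∀ a b, InI a → InI b → R.Triv (D.z (((1 + 1) * a) * b)) := by
    intro a b ha hb
    have e : (1 + 1) * a = a + a := by ring
    rw [e]
    exact R.triv_comm (hcen a ha) (D.hxy _ _ (ha.add ha) hb)
  have h2 : R.Triv (D.z (1 + 1)) := by
    apply expandz D (P := R.Triv) (fun a b => TRep.Triv.mul R) (fun a b => TRep.Triv.of_mul_right R)
    · exact InA_one.add InA_one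
    · exact htriv
  rw [D.hz 1 1 InA_one InA_one] at h2
  exact htf _ h2

end main

end Pool.Agent.Work.MP_0ed2d6_al
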