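import Pool.Agent.Work.MP_0ed2d6_al.Rep2

set_option autoImplicit false

open Matrix Module LaurentPolynomial

namespace Pool.Agent.Work.MP_0ed2d6_al

variable {H : Type*} [Group H] {K : Type*} [Field K] [CharZero K] (D : Rel H) (R : TRep H K)

/-- Everything we extract from a representation. -/
theorem zeta_facts (htf : ∀ h, R.Triv (h * h) → R.Triv h)
    (hα : R.α (D.z 1) = 1) (hβ : R.β (D.z 1) = 1) (hnt : ¬ R.Triv (D.z 1)) :
    (∀ c, InA c → R.Cen (D.z c)) ∧
    (∀ a, InI a → R.β (D.x a) = R.α (D.x a)) ∧ (∀ b, InI b → R.β (D.y b) = R.α (D.y b)) ∧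
    (∀ a a' b b', InI a → InI a' → InI b → InI b' →
      R.q (D.z (a * b)) * R.q (D.z (a' * b')) = R.q (D.z (a * b')) * R.q (D.z (a' * b))) := by
  have hg := beta_g D R htf hα hβ hnt
  have hx : ∀ a, InI a → R.β (D.x a) = R.α (D.x a) := fun a ha =>
    sign_eq R htf (xgx D a ha) hg
  have hy : ∀ a, InI a → R.β (D.y a) = R.α (D.y a) := fun a ha =>
    sign_eq R htf (ygy D a ha) hg
  have hx1 : ∀ a, InI a → R.α (D.x a) * R.α (D.x a) = 1 := fun a ha =>
    (coords_of_hgh R (xgx D a ha)).1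
  have hy1 : ∀ a, InI a → R.α (D.y a) * R.α (D.y a) = 1 := fun a ha =>
    (coords_of_hgh R (ygy D a ha)).1
  have hcm : ∀ a b, InI a → InI b → R.Cen (D.z (a * b)) ∧ R.q (D.z (a * b)) =
      (R.α (D.x a) * R.p (D.x a)) * (R.α (D.y b) * R.r (D.y b)) -
      (R.α (D.x a) * R.r (D.x a)) * (R.α (D.y b) * R.p (D.y b)) := fun a b ha hb =>
    R.cen_comm (hx a ha) (hy b hb) (hx1 a ha) (hy1 b hb) (D.hxy a b ha hb)
  refine ⟨?_, hx, hy, ?_⟩
  · intro c hc
    apply expandz D (P := R.Cen) (fun a b => TRep.Cen.mul R) (fun a b => TRep.Cen.of_mul_right R)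
      c hc
    intro a b ha hb
    exact (hcm _ _ (hc.mulI ha) hb).1
  · intro a a' b b' ha ha' hb hb'
    rw [(hcm a b ha hb).2, (hcm a' b' ha' hb').2, (hcm a b' ha hb').2, (hcm a' b ha' hb).2]
    have hxx : R.q (D.x a * D.x a') = R.q (D.x a' * D.x a) := by
      rw [← D.hx a a' ha ha', ← D.hx a' a ha' ha, add_comm]
    rw [R.hq, R.hq] at hxx
    have hpr : R.p (D.x a) * R.r (D.x a') = R.p (D.x a') * R.r (D.x a) := by
      linear_combination hxx
    linear_combination (R.α (D.x a) * R.α (D.x a') * R.α (D.y b) * R.α (D.y b')) *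
      (R.p (D.y b) * R.r (D.y b') - R.r (D.y b) * R.p (D.y b')) * hpr

/-- Multiplicativity of the `E13` coordinate. -/
theorem zeta_mul (htf : ∀ h, R.Triv (h * h) → R.Triv h)
    (hα : R.α (D.z 1) = 1) (hβ : R.β (D.z 1) = 1) (hnt : ¬ R.Triv (D.z 1)) :
    R.q (D.z 1) ≠ 0 ∧
    (∀ c c', InA c → InA c' → R.q (D.z (c + c')) = R.q (D.z c) + R.q (D.z c')) ∧
    (∀ c c', InA c → InA c' → R.q (D.z c) * R.q (D.z c') = R.q (D.z (c * c')) * R.q (D.z 1)) := by
  obtain ⟨hcen, hx, hy, hsw⟩ := zeta_facts D R htf hα hβ hnt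
  set ζ : LaurentPolynomial ℤ → K := fun c => R.q (D.z c) with hζ
  have hz1 : ζ 1 ≠ 0 := by
    intro h0
    obtain ⟨c1, c2, c3, c4⟩ := hcen 1 InA_one
    exact hnt ⟨c1, c2, c3, c4, h0⟩
  have hadd : ∀ c c', InA c → InA c' → ζ (c + c') = ζ c + ζ c' := by
    intro c c' hc hc'
    show R.q (D.z (c + c')) = _
    rw [D.hz c c' hc hc', TRep.Cen.q_mul R (hcen c hc) (hcen c' hc')]
  have hku : InI (kap * u) := InI_of_mem (cI.mul_mem_right _ kap_mem)
  have hexp : ∀ c, InA c → ζ c = ζ ((c * u) * u) - ζ ((c * (kap * u)) * u) + ζ ((c * kap) * kap) := by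
    intro c hc
    have e := expand c
    have h1 : InA ((c * (kap * u)) * u) := (hc.mulI hku).mul InI_u
    have h2 : InA ((c * u) * u) := (hc.mulI InI_u).mul InI_u
    have h3 : InA ((c * kap) * kap) := (hc.mulI InI_kap).mul InI_kap
    have e2 := congrArg ζ e
    rw [hadd _ _ h2 h3] at e2
    have e3 : c * kap * u * u = c * (kap * u) * u := by ring
    rw [e3, hadd _ _ hc h1] at e2
    linear_combination e2
  refine ⟨hz1, hadd, ?_⟩
  intro c c' hc hc'
  -- swap rule
  have sw : ∀ a b f k, InI a → InI b → InI f → InI k →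
      ζ ((c * a) * b) * ζ (f * (c' * k)) = ζ ((c * c' * a) * k) * ζ (f * b) := by
    intro a b f k ha hb hf hk
    have := hsw (c * a) f b (c' * k) (hc.mulI ha) hf hb (hc'.mulI hk)
    have e : (c * a) * (c' * k) = (c * c' * a) * k := by ring
    rw [e] at this
    exact this
  have sw2 : ∀ a b f k, InI a → InI b → InI f → InI k →
      ζ ((c * c' * a) * b) * ζ (f * k) = ζ ((c * c' * a) * k) * ζ (f * b) := by
    intro a b f k ha hb hf hk
    exact hsw (c * c' * a) f b k ((hc.mul hc').mulI ha) hf hb hk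
  have key : ∀ a b f k, InI a → InI b → InI f → InI k →
      ζ ((c * a) * b) * ζ ((c' * f) * k) = ζ ((c * c' * a) * b) * ζ (f * k) := by
    intro a b f k ha hb hf hk
    rw [sw2 a b f k ha hb hf hk]
    have e : (c' * f) * k = f * (c' * k) := by ring
    rw [e]
    exact sw a b f k ha hb hf hk
  have h1 := hexp 1 InA_one
  simp only [one_mul] at h1
  show ζ c * ζ c' = ζ (c * c') * ζ 1
  rw [hexp c hc, hexp c' hc', hexp (c * c') (hc.mul hc'), h1]
  have k11 := key u u u u InI_u InI_u InI_u InI_u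
  have k12 := key u u (kap * u) u InI_u InI_u hku InI_u
  have k13 := key u u kap kap InI_u InI_u InI_kap InI_kap
  have k21 := key (kap * u) u u u hku InI_u InI_u InI_u
  have k22 := key (kap * u) u (kap * u) u hku InI_u hku InI_u
  have k23 := key (kap * u) u kap kap hku InI_u InI_kap InI_kap
  have k31 := key kap kap u u InI_kap InI_kap InI_u InI_u
  have k32 := key kap kap (kap * u) u InI_kap InI_kap hku InI_u
  have k33 := key kap kap kap kap InI_kap InI_kap InI_kap InI_kap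
  linear_combination k11 - k12 + k13 - k21 + k22 - k23 + k31 - k32 + k33

end Pool.Agent.Work.MP_0ed2d6_al
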