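import Pool.Agent.Work.MP_0ed2d6_al.Main

set_option autoImplicit false

open LaurentPolynomial Matrix
open scoped commutatorElement

namespace Pool.Agent.Work.MP_0ed2d6_al

variable (tU : ℂˣ)

/-- The unipotent matrices of the Heisenberg shape. -/
private def UU : Subgroup (GL (Fin 3) ℂ) where
  carrier := {m | ∃ A b c, m = M 1 A b c}
  one_mem' := ⟨0, 0, 0, M_one.symm⟩
  mul_mem' := by
    rintro _ _ ⟨A, b, c, rfl⟩ ⟨A', b', c', rfl⟩
    rw [M_mul, one_mul]
    exact ⟨_, _, _, rfl⟩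
  inv_mem' := by
    rintro _ ⟨A, b, c, rfl⟩
    rw [M_inv, inv_one]
    exact ⟨_, _, _, rfl⟩

/-- The central matrices of the Heisenberg shape. -/
private def ZZ : Subgroup (GL (Fin 3) ℂ) where
  carrier := {m | ∃ c, m = M 1 0 0 c}
  one_mem' := ⟨0, M_one.symm⟩
  mul_mem' := by
    rintro _ _ ⟨c, rfl⟩ ⟨c', rfl⟩
    refine ⟨c' + 0 * 0 + c, (M_mul _ _ _ _ _ _ _ _).trans ?_⟩
    simp
  inv_mem' := by
    rintro _ ⟨c, rfl⟩
    refine ⟨-c, (M_inv _ _ _ _).trans ?_⟩
    simp

private theorem comm_all (d d' : ℂˣ) (A b c A' b' c' : ℂ) :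
    ⁅M d A b c, M d' A' b' c'⁆ ∈ UU := by
  have e : d * d' * d⁻¹ * d'⁻¹ = 1 := by
    rw [mul_comm d d', mul_assoc d' d, mul_inv_cancel, mul_one, mul_inv_cancel]
  rw [commutatorElement_def, M_mul, M_inv, M_mul, M_inv, M_mul, e]
  exact ⟨_, _, _, rfl⟩

private theorem comm_uni (A b c A' b' c' : ℂ) :
    ⁅M 1 A b c, M 1 A' b' c'⁆ ∈ ZZ := by
  rw [commutatorElement_def, M_mul, M_inv, M_mul, M_inv, M_mul]
  refine ⟨A * b' - A' * b, ?_⟩
  congr 1
  · simp
  · simp
  · simp
  · simp; ring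

private theorem comm_cen (c c' : ℂ) :
    ⁅M 1 0 0 c, M 1 0 0 c'⁆ = 1 := by
  rw [commutatorElement_def, M_mul, M_inv, M_mul, M_inv, M_mul, ← M_one]
  congr 1
  · simp
  · simp
  · simp
  · simp

/-- The group has derived length at most three. -/
theorem derived_three : derivedSeries (Gp tU) 3 = ⊥ := by
  have h1 : derivedSeries (Gp tU) 1 ≤ (UU).comap (Gp tU).subtype := by
    rw [derivedSeries_succ, derivedSeries_zero, Subgroup.commutator_le]
    rintro ⟨g1, h1⟩ - ⟨g2, h2⟩ -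
    obtain ⟨_, _, _, _, _, _, _, _, _, _, _, e1⟩ := good_of_mem tU h1
    obtain ⟨_, _, _, _, _, _, _, _, _, _, _, e2⟩ := good_of_mem tU h2
    rw [Subgroup.mem_comap, map_commutatorElement]
    show ⁅g1, g2⁆ ∈ UU
    rw [e1, e2]
    exact comm_all _ _ _ _ _ _ _ _
  have h2 : derivedSeries (Gp tU) 2 ≤ (ZZ).comap (Gp tU).subtype := by
    rw [derivedSeries_succ]
    refine (Subgroup.commutator_mono h1 h1).trans ?_
    rw [Subgroup.commutator_le]
    rintro g1 ⟨A, b, c, e1⟩ g2 ⟨A', b', c', e2⟩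
    rw [Subgroup.mem_comap, map_commutatorElement, e1, e2]
    exact comm_uni _ _ _ _ _ _
  have h3 : derivedSeries (Gp tU) 3 ≤ ⊥ := by
    rw [derivedSeries_succ]
    refine (Subgroup.commutator_mono h2 h2).trans ?_
    rw [Subgroup.commutator_le]
    rintro g1 ⟨c, e1⟩ g2 ⟨c', e2⟩
    rw [Subgroup.mem_bot]
    apply (Gp tU).subtype_injective
    rw [map_commutatorElement, map_one, e1, e2]
    exact comm_cen _ _
  exact le_bot_iff.mp h3

/-- Every representation over an algebraically closed algebraic field whose image has no element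
of order two or three kills `z 1`. -/
private theorem killed6 {H : Type*} [Group H] (D : Rel H) {K : Type*} [Field K] [CharZero K]
    [IsAlgClosed K] [Algebra ℚ K] [Algebra.IsAlgebraic ℚ K] (φ : H →* GL (Fin 3) K)
    (htf : ∀ h : H, φ h ^ 6 = 1 → φ h = 1) : φ (D.z 1) = 1 := by
  by_contra hne
  have hz : ∀ h : H, D.z 1 * h = h * D.z 1 := D.hzc 1 InA_one
  have hδ : ∀ δ : H →* K, δ (D.z 1) = 1 := by
    intro δ
    have hδ0 : ∀ h : H, δ h ≠ 0 := by
      intro h h0
      have : δ (h * h⁻¹) = 1 := by simp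
      rw [map_mul, h0, zero_mul] at this
      exact zero_ne_one this
    apply expandz D (P := fun h => δ h = 1)
    · intro a b ha hb; rw [map_mul, ha, hb, one_mul]
    · intro a b hab hb; rwa [map_mul, hb, mul_one] at hab
    · exact InA_one
    · intro a b ha hb
      have h1 := congrArg δ (D.hxy (1 * a) b (InA_one.mulI ha) hb)
      simp only [map_mul] at h1
      apply mul_right_cancel₀ (mul_ne_zero (hδ0 (D.y b)) (hδ0 (D.x (1 * a))))
      linear_combination -h1
  have hz6 : φ (D.z 1) ^ 6 ≠ 1 := fun h6 => hne (htf _ h6)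
  have hnc : ∃ a b : H, φ a * φ b ≠ φ b * φ a := by
    by_contra hcon
    push Not at hcon
    apply hne
    apply expandz D (P := fun h => φ h = 1)
    · intro a b ha hb; rw [map_mul, ha, hb, one_mul]
    · intro a b hab hb; rwa [map_mul, hb, mul_one] at hab
    · exact InA_one
    · intro a b ha hb
      have h1 := congrArg φ (D.hxy (1 * a) b (InA_one.mulI ha) hb)
      simp only [map_mul] at h1
      rw [hcon] at h1
      exact (mul_eq_right.mp h1.symm)
  obtain ⟨ρ, hρ1, hρ⟩ := normal_form φ (D.z 1) hz hδ hz6 hnc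
  have htf' : ∀ h, (tRep ρ hρ).Triv (h * h) → (tRep ρ hρ).Triv h := by
    intro h hh
    rw [tRep_triv, hρ1] at hh ⊢
    apply htf
    have h2 : φ h ^ 2 = 1 := by rw [pow_two, ← map_mul, hh]
    calc φ h ^ 6 = (φ h ^ 2) ^ 3 := by rw [← pow_mul]
      _ = 1 := by rw [h2, one_pow]
  have hfin := rep_final D (tRep ρ hρ) htf' (hδ _) (hδ _)
  rw [tRep_triv, hρ1] at hfin
  exact hne hfin

/-- The same over every field algebraic over the rationals. -/
private theorem killed_field {H : Type*} [Group H] (D : Rel H) {K : Type*} [Field K]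
    [Algebra ℚ K] [Algebra.IsAlgebraic ℚ K] (φ : H →* GL (Fin 3) K)
    (htf : ∀ h : H, φ h ^ 6 = 1 → φ h = 1) : φ (D.z 1) = 1 := by
  have : CharZero K := algebraRat.charZero K
  have : Algebra.IsAlgebraic ℚ (AlgebraicClosure K) := Algebra.IsAlgebraic.trans ℚ K _
  have hinj : Function.Injective
      (Matrix.GeneralLinearGroup.map (n := Fin 3) (algebraMap K (AlgebraicClosure K))) := by
    intro a b hab
    ext i j
    have h1 := congrArg (fun t : GL (Fin 3) (AlgebraicClosure K) =>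
      (t : Matrix (Fin 3) (Fin 3) (AlgebraicClosure K)) i j) hab
    exact (algebraMap K (AlgebraicClosure K)).injective h1
  apply hinj
  rw [map_one]
  refine killed6 D ((Matrix.GeneralLinearGroup.map (algebraMap K (AlgebraicClosure K))).comp φ) ?_
  intro h hh
  rw [MonoidHom.comp_apply, ← map_pow] at hh
  rw [MonoidHom.comp_apply, htf h (hinj (hh.trans (map_one _).symm)), map_one]

open Classical in
/-- The strong form of the counterexample. -/
theorem main_strong : ∃ G : Subgroup (GL (Fin 3) ℂ), G.FG ∧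
    (∀ x : G, IsOfFinOrder x → x = 1) ∧ derivedSeries G 3 = ⊥ ∧
    ∃ z ∈ Subgroup.center G, z ≠ 1 ∧
    ∀ (K : Type) [Field K] [Algebra ℚ K] [Algebra.IsAlgebraic ℚ K] (φ : G →* GL (Fin 3) K),
      (∀ h : G, φ h ^ 6 = 1 → φ h = 1) → φ z = 1 := by
  obtain ⟨t, ht⟩ := exists_tr
  have ht0 : t ≠ 0 := by
    rintro rfl
    exact ht isAlgebraic_zero
  set tU : ℂˣ := Units.mk0 t ht0 with htU
  have ht' : Transcendental ℤ (tU : ℂ) := ht
  refine ⟨Gp tU, Gp_fg tU, ?_, derived_three tU, (relG tU).z 1, ?_, ?_, ?_⟩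
  · intro x hx
    obtain ⟨n, hn, hx⟩ := isOfFinOrder_iff_pow_eq_one.mp hx
    ext1
    apply torsion_free tU ht' x.2 n hn
    rw [← Subgroup.coe_pow, hx]; rfl
  · rw [Subgroup.mem_center_iff]
    intro h
    exact ((relG tU).hzc 1 InA_one h).symm
  · intro h
    have h1 : (((relG tU).z 1 : Gp tU) : GL (Fin 3) ℂ) = 1 := by rw [h]; rfl
    have h2 : (((relG tU).z 1 : Gp tU) : GL (Fin 3) ℂ) = zM tU 1 := by
      show (((if h : InA 1 then (⟨zM tU 1, zM_mem tU 1 h⟩ : Gp tU) else 1) : Gp tU) : GL (Fin 3) ℂ) = _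
      rw [dif_pos InA_one]
    rw [h2, zM, ← M_one] at h1
    obtain ⟨_, _, _, h3⟩ := M_inj h1
    rw [mul_one, map_ofNat] at h3
    norm_num at h3
  · intro K _ _ _ φ hφ
    exact killed_field (relG tU) φ hφ

end Pool.Agent.Work.MP_0ed2d6_al
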